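import Pool.Agent.Helper13.SA.Defs

/-! Canonical splittings and the canonical process. -/

namespace Pool.Agent.Helper13.SA

open MulAction

/-- the class of finite groups -/
def FinC : GroupClass := fun G _ => Finite G

/-- Virtually free: `G` is finite or acts on a tree with finite vertex stabilisers. -/
def VFree : GroupClass := fun G _ =>
  Finite G ∨ ∃ S : Splitting FinC G, ∀ v : S.V, Finite (stabilizer G v)

/-- A canonical splitting. If `G` splits over finite groups, it is a splitting over finite groups
whose vertex groups do not split over finite groups. Otherwise every vertex group is virtually free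
or fixes a vertex in every splitting of `G`. -/
def Canonical {G : Type} [Group G] (S : Splitting FinVZ G) : Prop :=
  (Splits FinC G → (∀ u v, S.T.Adj u v → Finite ↥(stabilizer G u ⊓ stabilizer G v)) ∧
    ∀ v : S.V, ¬ Splits FinC (stabilizer G v)) ∧
  (¬ Splits FinC G → ∀ v : S.V, VFree (stabilizer G v) ∨
    ∀ S' : Splitting FinVZ G, ∃ w : S'.V, stabilizer G v ≤ stabilizer G w)

/-- Every sequence of canonical choices starting with `G` stops after at most `n` stages. -/
def CanonicalStops : ℕ → ∀ (G : Type) [Group G], Prop
  | 0, G, _ => ¬ Splits FinVZ G
  | n + 1, G, _ => ∀ S : Splitting FinVZ G, Canonical S → ∀ v : S.V,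
      CanonicalStops n (stabilizer G v)

end Pool.Agent.Helper13.SA
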