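import Pool.Agent.Helper13.SA.Unique

/-! The canonical process and subgroups. -/

namespace Pool.Agent.Helper13.SA

open SimpleGraph Function MulAction

variable {C : GroupClass} {G H : Type} [Group G] [Group H]

/-! ### Subgroups -/

/-- If every finitely generated intersection of a finitely generated subgroup with the conjugates
of the terminal groups is strongly accessible, then so is the subgroup. -/
theorem sa_subgroup (hC : Good C) : ∀ (n : ℕ) (G : Type) [Group G] (A : Set (Subgroup G)),
    StopsAt C n G A → ∀ (H : Type) [Group H] (f : H →* G), Injective f → Group.FG H →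
    (∀ B ∈ A, ∀ g : G, Group.FG ↥((cj g B).comap f) → StronglyAccessible C ↥((cj g B).comap f)) →
    StronglyAccessible C H := by
  intro n
  have base : ∀ (G : Type) [Group G] (H : Type) [Group H] (f : H →* G), Injective f → Group.FG H →
      (∀ B ∈ ({⊤} : Set (Subgroup G)), ∀ g : G, Group.FG ↥((cj g B).comap f) →
        StronglyAccessible C ↥((cj g B).comap f)) → StronglyAccessible C H := by
    intro G _ H _ f hf hH h
    let e : H ≃* ↥((cj (1 : G) ⊤).comap f) :=
      { toFun := fun x => ⟨x, by rw [cj_one]; exact Subgroup.mem_top _⟩
        invFun := fun x => x.1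
        left_inv := fun _ => rfl
        right_inv := fun _ => rfl
        map_mul' := fun _ _ => rfl }
    exact sa_congr hC.sub e
      (h ⊤ rfl 1 (Group.fg_of_surjective (f := e.toMonoidHom) e.surjective))
  induction n with
  | zero =>
    intro G _ A h H _ f hf hH hA
    rw [h.2] at hA
    exact base G H f hf hH hA
  | succ n ih =>
    intro G _ A h H _ f hf hH hA
    rcases h with h | ⟨S, R, B, hR, hB, rfl⟩
    · rw [h.2] at hA
      exact base G H f hf hH hA
    · -- the step for a subgroup mapping to the stabiliser of `v`
      have step : ∀ (v : S.V) (K : Type) [Group K] (k : K →* H), Injective k → Group.FG K →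
          (∀ x : K, f (k x) • v = v) → (∀ h : H, f h • v = v → ∃ x, k x = h) →
          StronglyAccessible C K := by
        intro v K _ k hk hK hfix hall
        obtain ⟨r, ⟨hr, g, hg⟩, -⟩ := hR v
        have hfix' : ∀ x, (g * f (k x) * g⁻¹) • r = r := by
          intro x
          rw [mul_smul, mul_smul, ← hg, inv_smul_smul, hfix]
        let j : K →* stabilizer G r :=
          ((MulAut.conj g).toMonoidHom.comp (f.comp k)).codRestrict _ (fun x => hfix' x)
        have hj : Injective j := by
          intro a b hab
          have : (MulAut.conj g) (f (k a)) = (MulAut.conj g) (f (k b)) := congrArg Subtype.val hab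
          exact hk (hf ((MulAut.conj g).injective this))
        refine ih _ _ (hB r hr) K j hj hK ?_
        intro L hL u hfg
        have hmem : ∀ x : K, x ∈ (cj u L).comap j ↔
            k x ∈ (cj (g⁻¹ * u.1) (L.map (stabilizer G r).subtype)).comap f := by
          intro x
          rw [Subgroup.mem_comap, Subgroup.mem_comap, mem_cj, mem_cj]
          have h1 : (g⁻¹ * u.1)⁻¹ * f (k x) * (g⁻¹ * u.1) = ((u⁻¹ * j x * u : stabilizer G r) : G) := by
            show (g⁻¹ * u.1)⁻¹ * f (k x) * (g⁻¹ * u.1) = (u.1)⁻¹ * (g * f (k x) * g⁻¹) * u.1
            group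
          rw [h1]
          constructor
          · intro h2; exact ⟨_, h2, rfl⟩
          · rintro ⟨y, hy, hy'⟩
            have : y = u⁻¹ * j x * u := Subtype.ext hy'
            rw [← this]; exact hy
        have hsurj : ∀ h : H, h ∈ (cj (g⁻¹ * u.1) (L.map (stabilizer G r).subtype)).comap f →
            f h • v = v := by
          intro h hh
          rw [Subgroup.mem_comap, mem_cj] at hh
          obtain ⟨y, -, hy⟩ := hh
          have h2 : ((g⁻¹ * u.1)⁻¹ * f h * (g⁻¹ * u.1)) • r = r := by rw [← hy]; exact y.2
          have hu : u.1 • r = r := u.2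
          rw [mul_smul, mul_smul, inv_smul_eq_iff, mul_smul, hu, ← hg, inv_smul_smul] at h2
          exact h2
        let e : ↥((cj u L).comap j) ≃*
            ↥((cj (g⁻¹ * u.1) (L.map (stabilizer G r).subtype)).comap f) :=
          MulEquiv.ofBijective
            ((k.comp (Subgroup.subtype _)).codRestrict _ (fun x => (hmem x.1).1 x.2)) (by
              constructor
              · intro a b hab
                exact Subtype.ext (hk (congrArg Subtype.val hab))
              · rintro ⟨h, hh⟩
                obtain ⟨x, hx⟩ := hall h (hsurj h hh)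
                refine ⟨⟨x, (hmem x).2 (by rw [hx]; exact hh)⟩, Subtype.ext hx⟩)
        exact sa_congr hC.sub e (hA _ ⟨r, hr, L, hL, rfl⟩ _
          (Group.fg_of_surjective (f := e.toMonoidHom) e.surjective))
      rcases restrict_or hC.sub hC.fg S f hf with ⟨v, hv⟩ | ⟨S', hS'⟩
      · exact step v H (MonoidHom.id H) injective_id hH hv (fun h _ => ⟨h, rfl⟩)
      · refine sa_of_stabilizers hC.sub S' fun x => ?_
        obtain ⟨hx, v, hv⟩ := hS' x
        exact step v _ (stabilizer H x).subtype Subtype.val_injective hx
          (fun y => (hv y.1).1 y.2) (fun h hh => ⟨⟨h, (hv h).2 hh⟩, rfl⟩)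

/-! ### The canonical process -/

theorem canonicalStops_succ : ∀ (n : ℕ) (G : Type) [Group G], CanonicalStops n G →
    CanonicalStops (n + 1) G := by
  intro n
  induction n with
  | zero => intro G _ h S; exact absurd ⟨S⟩ h
  | succ n ih => intro G _ h S hS v; exact ih _ (h S hS v)

theorem canonicalStops_mono {n m : ℕ} (hnm : n ≤ m) (G : Type) [Group G]
    (h : CanonicalStops n G) : CanonicalStops m G := by
  induction hnm with
  | refl => exact h
  | step _ ih => exact canonicalStops_succ _ _ ih

theorem canonicalStops_of_ns {G : Type} [Group G] (h : ¬ Splits FinVZ G) : CanonicalStops 0 G := h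

theorem canonicalStops_of_c {G : Type} [Group G] (h : FinVZ G) : CanonicalStops 1 G := by
  intro S _ v
  have := finite_stabilizer h S v
  exact not_splits_of_finite

theorem canonicalStops_of_vfree {G : Type} [Group G] (hG : Group.FG G) (h : VFree G) :
    CanonicalStops 1 G := by
  rcases h with h | ⟨S0, hS0⟩
  · exact canonicalStops_of_c (Or.inl h)
  · intro S hS v
    obtain ⟨-, h2⟩ := hS.1 ⟨S0⟩
    have hfg := stab_fg fg_finVZ S v
    obtain ⟨w, hw⟩ := exists_fixed subClosed_finC S0 (stabilizer G v).subtype
      Subtype.val_injective (h2 v)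
    have : Finite (stabilizer G w) := hS0 w
    have : Finite (stabilizer G v) := by
      have hle : stabilizer G v ≤ stabilizer G w := fun x hx => hw ⟨x, hx⟩
      exact Finite.of_injective (Subgroup.inclusion hle) (Subgroup.inclusion_injective hle)
    exact not_splits_of_finite

theorem canonicalStops_of_term : ∀ (n : ℕ) (G : Type) [Group G], Group.FG G →
    ReachIn FinVZ (Term FinVZ) n G →
    CanonicalStops (2 * n + 2) G ∧ (¬ Splits FinC G → CanonicalStops (2 * n + 1) G) := by
  -- from the one-ended case to the general case
  have red : ∀ (n : ℕ), (∀ (G : Type) [Group G], Group.FG G → ReachIn FinVZ (Term FinVZ) n G →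
      ¬ Splits FinC G → CanonicalStops (2 * n + 1) G) →
      ∀ (G : Type) [Group G], Group.FG G → ReachIn FinVZ (Term FinVZ) n G →
      CanonicalStops (2 * n + 2) G ∧ (¬ Splits FinC G → CanonicalStops (2 * n + 1) G) := by
    intro n hn G _ hG h
    refine ⟨?_, hn G hG h⟩
    by_cases hs : Splits FinC G
    · intro S hS v
      exact hn _ (stab_fg fg_finVZ S v) (reach_stabilizer subClosed_finVZ fg_finVZ h S v)
        ((hS.1 hs).2 v)
    · exact canonicalStops_succ _ _ (hn G hG h hs)
  intro n
  induction n with
  | zero =>
    refine red 0 ?_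
    intro G _ hG h _
    rcases h with h | h
    · exact canonicalStops_succ _ _ (canonicalStops_of_ns h)
    · exact canonicalStops_of_c h
  | succ n ih =>
    refine red (n + 1) ?_
    intro G _ hG h hns
    rcases h with h | ⟨S0, hS0⟩
    · rcases h with h | h
      · exact canonicalStops_mono (by omega) _ (canonicalStops_of_ns h)
      · exact canonicalStops_mono (by omega) _ (canonicalStops_of_c h)
    · intro S hS v
      have hfg := stab_fg fg_finVZ S v
      rcases hS.2 hns v with h | h
      · exact canonicalStops_mono (by omega) _ (canonicalStops_of_vfree hfg h)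
      · obtain ⟨w, hw⟩ := h S0
        let f' : stabilizer G v →* stabilizer G w := Subgroup.inclusion hw
        have hf' : Injective f' := Subgroup.inclusion_injective hw
        have hr : ReachIn FinVZ (Term FinVZ) n (stabilizer G v) := by
          refine pure_reach subClosed_finVZ fg_finVZ n _ (stab_fg fg_finVZ S0 w) (hS0 w) _ f' hf'
            hfg ?_
          intro L _ j hj hL hLs
          have hj' : Injective ((stabilizer G w).subtype.comp j) := Subtype.val_injective.comp hj
          have hrr : ∀ l : L, j l ∈ f'.range ↔
              ((stabilizer G w).subtype.comp j) l ∈ (stabilizer G v).subtype.range := by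
            intro l
            constructor
            · rintro ⟨x, hx⟩
              exact ⟨x, congrArg Subtype.val hx⟩
            · rintro ⟨x, hx⟩
              exact ⟨x, Subtype.ext hx⟩
          rcases pure_stabilizer subClosed_finVZ S v L _ hj' hL hLs with h1 | h1
          · exact Or.inl (fun l => (hrr l).2 (h1 l))
          · right
            have : f'.range.comap j =
                (stabilizer G v).subtype.range.comap ((stabilizer G w).subtype.comp j) := by
              ext l; exact hrr l
            rw [this]
            exact h1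
        exact (ih _ hfg hr).1

/-- **The canonical process of a strongly accessible group stops.** -/
theorem canonicalStops [hG : Group.FG G] {n : ℕ} (h : ReachIn FinVZ (NS FinVZ) n G) :
    CanonicalStops (2 * n + 2) G :=
  (canonicalStops_of_term n G hG (term_of_ns n G h)).1

theorem sa_of_canonicalStops (K : GroupClass)
    (hK : ∀ (G : Type) [Group G], K G → (Splits FinVZ G → ∃ S : Splitting FinVZ G, Canonical S) ∧
      ∀ (S : Splitting FinVZ G) (v : S.V), K (stabilizer G v)) :
    ∀ (n : ℕ) (G : Type) [Group G], K G → CanonicalStops n G → StronglyAccessible FinVZ G := by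
  have ns : ∀ (G : Type) [Group G], ¬ Splits FinVZ G → StronglyAccessible FinVZ G :=
    fun G _ h => ⟨0, {⊤}, h, rfl⟩
  intro n
  induction n with
  | zero => intro G _ _ h; exact ns G h
  | succ n ih =>
    intro G _ hG h
    by_cases hs : Splits FinVZ G
    · obtain ⟨S, hS⟩ := (hK G hG).1 hs
      exact sa_of_stabilizers subClosed_finVZ S fun v => ih _ ((hK G hG).2 S v) (h S hS v)
    · exact ns G hs

theorem choice_independence :
    (∀ (G : Type) [Group G] [Group.FG G] (S : Splitting FinVZ G),
      (StronglyAccessible FinVZ G ↔ ∀ v : S.V, StronglyAccessible FinVZ (stabilizer G v)) ∧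
      ∀ (n : ℕ) (A : Set (Subgroup G)), StopsAt FinVZ n G A →
        ∀ v : S.V, ∃ A', StopsAt FinVZ (n + 1) (stabilizer G v) A') ∧
    (∀ (G : Type) [Group G] [Group.FG G] (n : ℕ) (A : Set (Subgroup G)),
      StopsAt FinVZ n G A → CanonicalStops (2 * n + 2) G) ∧
    (∀ K : GroupClass,
      (∀ (G : Type) [Group G], K G → Group.FG G ∧
        (Splits FinVZ G → ∃ S : Splitting FinVZ G, Canonical S) ∧
        ∀ (S : Splitting FinVZ G) (v : S.V), K (stabilizer G v)) →
      ∀ (G : Type) [Group G], K G → (StronglyAccessible FinVZ G ↔ ∃ n, CanonicalStops n G)) := by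
  refine ⟨?_, ?_, ?_⟩
  · intro G _ _ S
    refine ⟨sa_iff_stabilizers good_finVZ S, fun n A h v => ?_⟩
    exact stopsAt_of_reachIn _ _ (reach_vertex good_finVZ (reachIn_of_stopsAt subClosed_finVZ n G A h) S v)
  · intro G _ _ n A h
    exact canonicalStops (reachIn_of_stopsAt subClosed_finVZ n G A h)
  · intro K hK G _ hG
    constructor
    · rintro ⟨n, A, h⟩
      have : Group.FG G := (hK G hG).1
      exact ⟨_, canonicalStops (reachIn_of_stopsAt subClosed_finVZ n G A h)⟩
    · rintro ⟨n, h⟩
      exact sa_of_canonicalStops K (fun G _ h => (hK G h).2) n G hG h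

end Pool.Agent.Helper13.SA
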