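import Mathlib

/-! Splittings of groups over a class of groups, and strong accessibility (MP_d22324_al). -/

namespace Pool.Agent.Helper13.SA

/-- A class of groups. -/
abbrev GroupClass : Type 1 := ∀ (G : Type) [Group G], Prop

/-- `G` is finite or virtually infinite cyclic. -/
def FinVZ : GroupClass := fun G _ =>
  Finite G ∨ ∃ t : G, orderOf t = 0 ∧ (Subgroup.zpowers t).FiniteIndex

/-- A splitting of `G` over the class `C`, given by its Bass-Serre tree: an action of `G` on a
tree without inversions, with finitely many orbits of edges, edge stabilisers in `C` and no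
global fixed vertex. The vertex groups are the stabilisers of the vertices. -/
structure Splitting (C : GroupClass) (G : Type) [Group G] where
  /-- the vertices of the tree -/
  V : Type
  [act : MulAction G V]
  /-- the tree -/
  T : SimpleGraph V
  tree : T.IsTree
  adj : ∀ (g : G) (u v : V), T.Adj u v → T.Adj (g • u) (g • v)
  noinv : ∀ (g : G) (u v : V), T.Adj u v → ¬ (g • u = v ∧ g • v = u)
  fin : ∃ F : Set (V × V), F.Finite ∧ ∀ u v, T.Adj u v → ∃ g : G, (g • u, g • v) ∈ F
  edge : ∀ u v, T.Adj u v → C ↥(MulAction.stabilizer G u ⊓ MulAction.stabilizer G v)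
  nofix : ∀ v : V, ∃ g : G, g • v ≠ v

attribute [instance] Splitting.act

/-- `G` has a splitting over `C`. -/
def Splits (C : GroupClass) (G : Type) [Group G] : Prop := Nonempty (Splitting C G)

/-- The process of iterated splittings over `C` starting with `G` can be stopped after at most `n`
stages, and then ends with the collection `A` of subgroups of `G`: either `G` does not split and
`A = {G}`, or there is a splitting and a set `R` of representatives of the orbits of vertices such
that the process stops after at most `n - 1` stages for the stabilisers of the vertices in `R`, and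
`A` is the union of the resulting collections. -/
def StopsAt (C : GroupClass) : ℕ → ∀ (G : Type) [Group G], Set (Subgroup G) → Prop
  | 0, G, _, A => ¬ Splits C G ∧ A = {⊤}
  | n + 1, G, _, A => (¬ Splits C G ∧ A = {⊤}) ∨
      ∃ (S : Splitting C G) (R : Set S.V)
        (B : ∀ v : S.V, Set (Subgroup (MulAction.stabilizer G v))),
        (∀ v : S.V, ∃! r, r ∈ R ∧ ∃ g : G, g • v = r) ∧
        (∀ v ∈ R, StopsAt C n (MulAction.stabilizer G v) (B v)) ∧
        A = {K | ∃ v ∈ R, ∃ L ∈ B v, K = L.map (MulAction.stabilizer G v).subtype}

/-- `G` is strongly accessible over `C`. -/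
def StronglyAccessible (C : GroupClass) (G : Type) [Group G] : Prop :=
  ∃ n A, StopsAt C n G A

end Pool.Agent.Helper13.SA
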