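import Pool.Agent.Helper13.SA.FixedPoint
import Pool.Agent.Helper13.SA.Pure
import Pool.Agent.Helper13.SA.CanonDefs

/-! The class of groups that are finite or virtually infinite cyclic. -/

namespace Pool.Agent.Helper13.SA

open SimpleGraph Function MulAction

theorem subClosed_finC : SubClosed FinC := fun _ _ _ _ f hf h =>
  haveI : Finite _ := h
  Finite.of_injective f hf

variable {G H : Type} [Group G] [Group H]

theorem exists_zpow {t : G} (ht : (Subgroup.zpowers t).FiniteIndex) (f : H →* G) (hf : Injective f)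
    [Infinite H] : ∃ (h : H) (k : ℤ), h ≠ 1 ∧ k ≠ 0 ∧ t ^ k = f h := by
  have := Subgroup.finite_quotient_of_finiteIndex (H := Subgroup.zpowers t)
  obtain ⟨a, b, hab, h⟩ := Finite.exists_ne_map_eq_of_infinite
    (fun h : H => (QuotientGroup.mk (f h) : G ⧸ Subgroup.zpowers t))
  have h1 : (f a)⁻¹ * f b ∈ Subgroup.zpowers t := QuotientGroup.eq.1 h
  obtain ⟨k, hk⟩ := Subgroup.mem_zpowers_iff.1 h1
  have h2 : a⁻¹ * b ≠ 1 := fun h3 => hab (inv_mul_eq_one.1 h3)
  refine ⟨a⁻¹ * b, k, h2, ?_, ?_⟩
  · rintro rfl
    apply h2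
    apply hf
    rw [map_mul, map_inv, ← hk, zpow_zero, map_one]
  · rw [hk, map_mul, map_inv]

theorem exists_rep (t g : G) : ∃ m : ℤ,
    g = (QuotientGroup.mk g : G ⧸ Subgroup.zpowers t).out * t ^ m := by
  have h : (QuotientGroup.mk (QuotientGroup.mk g : G ⧸ Subgroup.zpowers t).out :
      G ⧸ Subgroup.zpowers t) = QuotientGroup.mk g := Quotient.out_eq _
  obtain ⟨m, hm⟩ := Subgroup.mem_zpowers_iff.1 (QuotientGroup.eq.1 h)
  exact ⟨m, by rw [hm, mul_inv_cancel_left]⟩

theorem subClosed_finVZ : SubClosed FinVZ := by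
  intro H G _ _ f hf h
  rcases finite_or_infinite H with hH | hH
  · exact Or.inl hH
  · rcases h with h | ⟨t, ht, hti⟩
    · exact absurd (Finite.of_injective f hf) (by simpa using hH)
    · right
      obtain ⟨h0, k, h01, hk, hk'⟩ := exists_zpow hti f hf
      have hinj : Injective fun n : ℤ => t ^ n :=
        injective_zpow_iff_not_isOfFinOrder.2 (orderOf_eq_zero_iff.1 ht)
      refine ⟨h0, ?_, ?_⟩
      · rw [orderOf_eq_zero_iff, ← injective_zpow_iff_not_isOfFinOrder]
        intro a b hab
        have h1 : f (h0 ^ a) = f (h0 ^ b) := congrArg f hab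
        rw [map_zpow, map_zpow, ← hk', ← zpow_mul, ← zpow_mul] at h1
        exact mul_left_cancel₀ hk (hinj h1)
      · have := Subgroup.finite_quotient_of_finiteIndex (H := Subgroup.zpowers t)
        have : NeZero k.natAbs := ⟨by simpa using hk⟩
        choose m hm using exists_rep (G := G) t
        let ψ : H → (G ⧸ Subgroup.zpowers t) × ZMod k.natAbs :=
          fun h => (QuotientGroup.mk (f h), (m (f h) : ZMod k.natAbs))
        have hψ : ∀ a b, ψ a = ψ b → a⁻¹ * b ∈ Subgroup.zpowers h0 := by
          intro a b hab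
          rw [Prod.mk.injEq] at hab
          obtain ⟨h1, h2⟩ := hab
          rw [ZMod.intCast_eq_intCast_iff_dvd_sub, Int.natAbs_dvd] at h2
          obtain ⟨j, hj⟩ := h2
          refine Subgroup.mem_zpowers_iff.2 ⟨j, hf ?_⟩
          have h3 : (f a)⁻¹ * f b = t ^ (m (f b) - m (f a)) := by
            rw [inv_mul_eq_iff_eq_mul]
            calc f b = (QuotientGroup.mk (f b) : G ⧸ Subgroup.zpowers t).out * t ^ m (f b) :=
                  hm (f b)
              _ = (QuotientGroup.mk (f a) : G ⧸ Subgroup.zpowers t).out * t ^ m (f b) := by rw [h1]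
              _ = ((QuotientGroup.mk (f a) : G ⧸ Subgroup.zpowers t).out * t ^ m (f a)) *
                    t ^ (m (f b) - m (f a)) := by
                  rw [mul_assoc, ← zpow_add]; congr 2; ring
              _ = f a * t ^ (m (f b) - m (f a)) := by rw [← hm (f a)]
          rw [map_zpow, ← hk', ← zpow_mul, map_mul, map_inv, h3, hj]
        have : Finite (H ⧸ Subgroup.zpowers h0) := by
          refine Finite.of_injective (fun x => ψ x.out) ?_
          intro x y hxy
          have h1 := hψ _ _ hxy
          rw [← Quotient.out_eq x, ← Quotient.out_eq y]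
          exact QuotientGroup.eq.2 h1
        exact Subgroup.finiteIndex_of_finite_quotient

theorem fg_finVZ : ∀ (G : Type) [Group G], FinVZ G → Group.FG G := by
  intro G _ h
  rcases h with h | ⟨t, -, hti⟩
  · infer_instance
  · have := Subgroup.finite_quotient_of_finiteIndex (H := Subgroup.zpowers t)
    rw [Group.fg_iff]
    refine ⟨{t} ∪ Set.range (fun x : G ⧸ Subgroup.zpowers t => x.out), ?_,
      (Set.finite_singleton t).union (Set.finite_range _)⟩
    rw [eq_top_iff]
    intro g _
    obtain ⟨m, hm⟩ := exists_rep t g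
    rw [hm]
    have ht : t ∈ Subgroup.closure
        ({t} ∪ Set.range (fun x : G ⧸ Subgroup.zpowers t => x.out)) :=
      Subgroup.subset_closure (Or.inl rfl)
    exact Subgroup.mul_mem _ (Subgroup.subset_closure (Or.inr ⟨_, rfl⟩))
      (Subgroup.zpow_mem _ ht m)

/-- The vertex groups of a splitting of a finite or virtually cyclic group are finite. -/
theorem finite_stabilizer {C : GroupClass} (h : FinVZ G) (S : Splitting C G) (v : S.V) :
    Finite (stabilizer G v) := by
  by_contra hinf
  rw [not_finite_iff_infinite] at hinf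
  rcases h with h | ⟨t, -, hti⟩
  · exact not_splits_of_finite ⟨S⟩
  · obtain ⟨h0, k, -, hk, hk'⟩ := exists_zpow hti (stabilizer G v).subtype Subtype.val_injective
    have := Subgroup.finite_quotient_of_finiteIndex (H := Subgroup.zpowers t)
    have hfix : t ^ k • v = v := by
      rw [hk']
      exact h0.2
    have hfix' : ∀ j : ℤ, (t ^ k) ^ j • v = v := by
      intro j
      have : t ^ k ∈ stabilizer G v := hfix
      exact (stabilizer G v).zpow_mem this j
    have hmod : ∀ m : ℤ, t ^ m • v = t ^ (m % k) • v := by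
      intro m
      conv_lhs => rw [← Int.emod_add_mul_ediv m k]
      rw [zpow_add, mul_smul, zpow_mul, hfix']
    apply no_finite_orbit S v
    have hfin : (Set.Icc (0 : ℤ) |k|).Finite := Set.finite_Icc _ _
    refine ((Set.finite_univ (α := G ⧸ Subgroup.zpowers t)).prod hfin |>.image
      (fun x => x.1.out • t ^ x.2 • v)).subset ?_
    rintro _ ⟨g, rfl⟩
    obtain ⟨m, hm⟩ := exists_rep t g
    refine ⟨(QuotientGroup.mk g, m % k), ⟨Set.mem_univ _, Int.emod_nonneg _ hk,
      (Int.emod_lt_abs _ hk).le⟩, ?_⟩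
    show (QuotientGroup.mk g : G ⧸ Subgroup.zpowers t).out • t ^ (m % k) • v = g • v
    rw [← hmod, ← mul_smul, ← hm]

end Pool.Agent.Helper13.SA
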