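import Pool.Agent.Helper13.SA.Canonical

/-! Strong accessibility and surjections with finite kernel. -/

namespace Pool.Agent.Helper13.SA

open SimpleGraph Function MulAction

theorem finVZ_of_finite_ker {A B : Type} [Group A] [Group B] (f : A →* B) [hker : Finite f.ker]
    (h : FinVZ B) : FinVZ A := by
  classical
  rcases finite_or_infinite A with hA | hA
  · exact Or.inl hA
  · right
    have hfib : ∀ b : B, (f ⁻¹' {b}).Finite := by
      intro b
      by_cases hb : ∃ a, f a = b
      · obtain ⟨a, rfl⟩ := hb
        have h1 : ((fun k : f.ker => a * k.1) '' Set.univ).Finite := Set.finite_univ.image _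
        refine h1.subset ?_
        intro x hx
        have hx' : f x = f a := hx
        refine ⟨⟨a⁻¹ * x, ?_⟩, Set.mem_univ _, mul_inv_cancel_left _ _⟩
        rw [MonoidHom.mem_ker, map_mul, map_inv, hx', inv_mul_cancel]
      · have : f ⁻¹' {b} = ∅ := by
          ext x
          simp only [Set.mem_preimage, Set.mem_singleton_iff, Set.mem_empty_iff_false, iff_false]
          exact fun hx => hb ⟨x, hx⟩
        rw [this]
        exact Set.finite_empty
    rcases h with h | ⟨t, ht, hti⟩
    · exfalso
      have h1 : (Set.univ : Set A) = ⋃ b : B, f ⁻¹' {b} := by ext x; simp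
      have h2 : (Set.univ : Set A).Finite := by
        rw [h1]
        exact Set.finite_iUnion hfib
      exact (Set.infinite_univ (α := A)) h2
    · have hq := Subgroup.finite_quotient_of_finiteIndex (H := Subgroup.zpowers t)
      have hinj : Injective fun n : ℤ => t ^ n :=
        injective_zpow_iff_not_isOfFinOrder.2 (orderOf_eq_zero_iff.1 ht)
      choose m hm using exists_rep (G := B) t
      -- an element mapping to a nontrivial power of `t`
      obtain ⟨a0, k, hk, hk'⟩ : ∃ (a0 : A) (k : ℤ), k ≠ 0 ∧ t ^ k = f a0 := by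
        by_contra hno
        push Not at hno
        have h1 : ∀ a b : A, (QuotientGroup.mk (f a) : B ⧸ Subgroup.zpowers t) =
            QuotientGroup.mk (f b) → f a = f b := by
          intro a b hab
          obtain ⟨k, hk⟩ := Subgroup.mem_zpowers_iff.1 (QuotientGroup.eq.1 hab)
          by_cases hk0 : k = 0
          · rw [hk0, zpow_zero] at hk
            exact (inv_mul_eq_one.1 hk.symm)
          · exact absurd (by rw [hk, map_mul, map_inv]) (hno (a⁻¹ * b) k hk0)
        have h2 : (Set.range f).Finite := by
          refine Set.Finite.of_finite_image (f := fun b : B =>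
            (QuotientGroup.mk b : B ⧸ Subgroup.zpowers t)) (Set.toFinite _) ?_
          rintro _ ⟨a, rfl⟩ _ ⟨b, rfl⟩ hab
          exact h1 a b hab
        have h3 : (Set.univ : Set A).Finite := by
          have : (Set.univ : Set A) = ⋃ b ∈ Set.range f, f ⁻¹' {b} := by
            ext x; simp
          rw [this]
          exact h2.biUnion fun b _ => hfib b
        exact (Set.infinite_univ (α := A)) h3
      refine ⟨a0, ?_, ?_⟩
      · rw [orderOf_eq_zero_iff, ← injective_zpow_iff_not_isOfFinOrder]
        intro a b hab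
        have h1 : f (a0 ^ a) = f (a0 ^ b) := congrArg f hab
        rw [map_zpow, map_zpow, ← hk', ← zpow_mul, ← zpow_mul] at h1
        exact mul_left_cancel₀ hk (hinj h1)
      · have hne : NeZero k.natAbs := ⟨by simpa using hk⟩
        let ψ : A → (B ⧸ Subgroup.zpowers t) × ZMod k.natAbs :=
          fun h => (QuotientGroup.mk (f h), (m (f h) : ZMod k.natAbs))
        have hψ : ∀ a b, ψ a = ψ b → ∃ j : ℤ, f (a⁻¹ * b) = f (a0 ^ j) := by
          intro a b hab
          rw [Prod.mk.injEq] at hab
          obtain ⟨h1, h2⟩ := hab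
          rw [ZMod.intCast_eq_intCast_iff_dvd_sub, Int.natAbs_dvd] at h2
          obtain ⟨j, hj⟩ := h2
          refine ⟨j, ?_⟩
          have h3 : (f a)⁻¹ * f b = t ^ (m (f b) - m (f a)) := by
            rw [inv_mul_eq_iff_eq_mul]
            calc f b = (QuotientGroup.mk (f b) : B ⧸ Subgroup.zpowers t).out * t ^ m (f b) :=
                  hm (f b)
              _ = (QuotientGroup.mk (f a) : B ⧸ Subgroup.zpowers t).out * t ^ m (f b) := by rw [h1]
              _ = ((QuotientGroup.mk (f a) : B ⧸ Subgroup.zpowers t).out * t ^ m (f a)) *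
                    t ^ (m (f b) - m (f a)) := by
                  rw [mul_assoc, ← zpow_add]; congr 2; ring
              _ = f a * t ^ (m (f b) - m (f a)) := by rw [← hm (f a)]
          rw [map_zpow, ← hk', ← zpow_mul, map_mul, map_inv, h3, hj]
        -- the fibres of `ψ` on the quotient are finite
        have hfin : ∀ y, {x : A ⧸ Subgroup.zpowers a0 | ψ x.out = y}.Finite := by
          intro y
          by_cases hy : ∃ x : A ⧸ Subgroup.zpowers a0, ψ x.out = y
          · obtain ⟨x0, hx0⟩ := hy
            have h1 : ((fun c : f.ker => (QuotientGroup.mk (x0.out * c.1) :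
                A ⧸ Subgroup.zpowers a0)) '' Set.univ).Finite := Set.finite_univ.image _
            refine h1.subset ?_
            intro x hx
            have hx' : ψ x.out = y := hx
            obtain ⟨j, hj⟩ := hψ x0.out x.out (by rw [hx0, hx'])
            refine ⟨⟨x0.out⁻¹ * x.out * (a0 ^ j)⁻¹, ?_⟩, Set.mem_univ _, ?_⟩
            · rw [MonoidHom.mem_ker, map_mul, hj, map_inv, mul_inv_cancel]
            · show (QuotientGroup.mk (x0.out * (x0.out⁻¹ * x.out * (a0 ^ j)⁻¹)) :
                A ⧸ Subgroup.zpowers a0) = x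
              have h2 : x = QuotientGroup.mk x.out := (Quotient.out_eq x).symm
              conv_rhs => rw [h2]
              rw [QuotientGroup.eq]
              have h3 : (x0.out * (x0.out⁻¹ * x.out * (a0 ^ j)⁻¹))⁻¹ * x.out = a0 ^ j := by group
              rw [h3]
              exact Subgroup.zpow_mem _ (Subgroup.mem_zpowers a0) j
          · have : {x : A ⧸ Subgroup.zpowers a0 | ψ x.out = y} = ∅ := by
              ext x
              simp only [Set.mem_ofPred_eq, Set.mem_empty_iff_false, iff_false]
              exact fun hx => hy ⟨x, hx⟩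
            rw [this]
            exact Set.finite_empty
        have hfinite : Finite (A ⧸ Subgroup.zpowers a0) := by
          have h1 : (Set.univ : Set (A ⧸ Subgroup.zpowers a0)) =
              ⋃ y, {x : A ⧸ Subgroup.zpowers a0 | ψ x.out = y} := by ext x; simp
          have h2 : (Set.univ : Set (A ⧸ Subgroup.zpowers a0)).Finite := by
            rw [h1]
            exact Set.finite_iUnion hfin
          exact Set.finite_univ_iff.1 h2
        exact Subgroup.finiteIndex_of_finite_quotient

theorem finVZ_of_surjective {A B : Type} [Group A] [Group B] (f : A →* B) (hf : Surjective f)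
    [hker : Finite f.ker] (h : FinVZ A) : FinVZ B := by
  rcases h with h | ⟨t, ht, hti⟩
  · exact Or.inl (Finite.of_surjective f hf)
  · refine Or.inr ⟨f t, ?_, ?_⟩
    · rw [orderOf_eq_zero_iff, ← injective_zpow_iff_not_isOfFinOrder]
      have hinj : Injective fun n : ℤ => t ^ n :=
        injective_zpow_iff_not_isOfFinOrder.2 (orderOf_eq_zero_iff.1 ht)
      intro a b hab
      by_contra hne
      have h1 : f t ^ (a - b) = 1 := by
        have hab' : f t ^ a = f t ^ b := hab
        rw [zpow_sub, hab', mul_inv_cancel]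
      have h2 : ∀ n : ℤ, t ^ ((a - b) * n) ∈ f.ker := by
        intro n
        rw [MonoidHom.mem_ker, map_zpow, zpow_mul, h1, one_zpow]
      have h3 : Injective fun n : ℤ => (⟨t ^ ((a - b) * n), h2 n⟩ : f.ker) := by
        intro x y hxy
        have h4 : t ^ ((a - b) * x) = t ^ ((a - b) * y) := congrArg Subtype.val hxy
        exact mul_left_cancel₀ (sub_ne_zero.2 hne) (hinj h4)
      exact not_injective_infinite_finite _ h3
    · have hq := Subgroup.finite_quotient_of_finiteIndex (H := Subgroup.zpowers t)
      have : Finite (B ⧸ Subgroup.zpowers (f t)) := by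
        refine Finite.of_surjective (fun x : A ⧸ Subgroup.zpowers t =>
          (QuotientGroup.mk (f x.out) : B ⧸ Subgroup.zpowers (f t))) ?_
        intro y
        obtain ⟨b, rfl⟩ := QuotientGroup.mk_surjective y
        obtain ⟨a, rfl⟩ := hf b
        refine ⟨QuotientGroup.mk a, ?_⟩
        obtain ⟨k, hk⟩ := exists_rep t a
        rw [QuotientGroup.eq]
        have h1 : (QuotientGroup.mk a : A ⧸ Subgroup.zpowers t).out⁻¹ * a = t ^ k :=
          inv_mul_eq_iff_eq_mul.2 hk
        rw [← map_inv, ← map_mul, h1, map_zpow]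
        exact Subgroup.zpow_mem _ (Subgroup.mem_zpowers _) k
      exact Subgroup.finiteIndex_of_finite_quotient

variable {G Q : Type} [Group G] [Group Q]

theorem finite_ker_restrict (π : G →* Q) [h : Finite π.ker] (K : Subgroup G) (L : Subgroup Q)
    (f : K →* L) (hf : ∀ x, (f x).1 = π x.1) : Finite f.ker := by
  refine Finite.of_injective (fun x : f.ker => (⟨x.1.1, by
    rw [MonoidHom.mem_ker, ← hf, (MonoidHom.mem_ker).1 x.2]; rfl⟩ : π.ker)) ?_
  intro a b hab
  have h1 : a.1.1 = b.1.1 := congrArg (fun z : π.ker => z.1) hab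
  exact Subtype.ext (Subtype.ext h1)

/-- pulling back a splitting along a surjection with finite kernel -/
def Splitting.pull (S : Splitting FinVZ Q) (π : G →* Q) (hπ : Surjective π) [Finite π.ker] :
    Splitting FinVZ G :=
  letI act' : MulAction G S.V := MulAction.compHom S.V π
  { V := S.V
    act := act'
    T := S.T
    tree := S.tree
    adj := fun h u v huv => S.adj (π h) u v huv
    noinv := fun h u v huv hh => S.noinv (π h) u v huv hh
    fin := by
      obtain ⟨F, hF, h⟩ := S.fin
      refine ⟨F, hF, fun u v huv => ?_⟩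
      obtain ⟨q, hq⟩ := h u v huv
      obtain ⟨g, rfl⟩ := hπ q
      exact ⟨g, hq⟩
    edge := fun u v huv => by
      let f : ↥(@MulAction.stabilizer G S.V _ act' u ⊓ @MulAction.stabilizer G S.V _ act' v) →*
          ↥(MulAction.stabilizer Q u ⊓ MulAction.stabilizer Q v) :=
        (π.comp (Subgroup.subtype _)).codRestrict _ (by
          rintro ⟨h, hh1, hh2⟩
          exact ⟨hh1, hh2⟩)
      have hfk : Finite f.ker := finite_ker_restrict π _ _ f (fun _ => rfl)
      exact finVZ_of_finite_ker f (S.edge _ _ huv)
    nofix := fun v => by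
      obtain ⟨q, hq⟩ := S.nofix v
      obtain ⟨g, rfl⟩ := hπ q
      exact ⟨g, hq⟩ }

/-- The vertices fixed by the kernel. -/
def kfix (S : Splitting FinVZ G) (π : G →* Q) : Set S.V := {v | ∀ k ∈ π.ker, k • v = v}

theorem kfix_smul_eq (S : Splitting FinVZ G) (π : G →* Q) {v : S.V} (hv : v ∈ kfix S π) {g g' : G}
    (h : π g = π g') : g • v = g' • v := by
  have h1 : g'⁻¹ * g ∈ π.ker := by
    rw [MonoidHom.mem_ker, map_mul, map_inv, h, inv_mul_cancel]
  have h2 := hv _ h1
  rw [mul_smul, inv_smul_eq_iff] at h2
  exact h2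

theorem kfix_smul_mem (S : Splitting FinVZ G) (π : G →* Q) {v : S.V} (hv : v ∈ kfix S π) (g : G) :
    g • v ∈ kfix S π := by
  intro k hk
  have h1 : g⁻¹ * k * g ∈ π.ker := by
    rw [MonoidHom.mem_ker, map_mul, map_mul, (MonoidHom.mem_ker).1 hk, mul_one, map_inv,
      inv_mul_cancel]
  have h2 := hv _ h1
  rw [mul_smul, mul_smul, inv_smul_eq_iff] at h2
  exact h2

theorem kfix_toward (S : Splitting FinVZ G) (π : G →* Q) {u v : S.V} (hu : u ∈ kfix S π)
    (hv : v ∈ kfix S π) : toward S.tree u v ∈ kfix S π :=
  fun k hk => fix_toward S (hu k hk) (hv k hk)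

theorem kfix_reachable (S : Splitting FinVZ G) (π : G →* Q) : ∀ (n : ℕ) (u v : kfix S π),
    S.T.dist u.1 v.1 = n → (S.T.induce (kfix S π)).Reachable u v := by
  intro n
  induction n with
  | zero =>
    intro u v h
    rw [S.tree.connected.dist_eq_zero_iff] at h
    rw [Subtype.ext h]
  | succ n ih =>
    intro u v h
    have hne : u.1 ≠ v.1 := by
      intro h'
      rw [h', SimpleGraph.dist_self] at h
      exact absurd h (by omega)
    have h1 := dist_toward S.tree hne
    let w : kfix S π := ⟨toward S.tree u.1 v.1, kfix_toward S π u.2 v.2⟩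
    have h2 : (S.T.induce (kfix S π)).Adj u w := adj_toward S.tree hne
    have h3 : S.T.dist w.1 v.1 = n := by
      show S.T.dist (toward S.tree u.1 v.1) v.1 = n
      omega
    exact h2.reachable.trans (ih w v h3)

/-- pushing forward a splitting along a surjection with finite kernel -/
noncomputable def Splitting.push (S : Splitting FinVZ G) (π : G →* Q) (hπ : Surjective π)
    [Finite π.ker] : Splitting FinVZ Q :=
  letI act' : MulAction Q (kfix S π) :=
    { smul := fun q v => ⟨surjInv hπ q • v.1, kfix_smul_mem S π v.2 _⟩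
      one_smul := fun v => Subtype.ext (by
        show surjInv hπ 1 • v.1 = v.1
        rw [kfix_smul_eq S π v.2 (g' := 1) (by rw [surjInv_eq hπ, map_one]), one_smul])
      mul_smul := fun a b v => Subtype.ext (by
        show surjInv hπ (a * b) • v.1 = surjInv hπ a • surjInv hπ b • v.1
        rw [kfix_smul_eq S π v.2 (g' := surjInv hπ a * surjInv hπ b)
          (by rw [surjInv_eq hπ, map_mul, surjInv_eq hπ, surjInv_eq hπ]), mul_smul]) }
  have hact : ∀ (g : G) (v : kfix S π), ((π g • v : kfix S π) : S.V) = g • v.1 := fun g v => by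
    show surjInv hπ (π g) • v.1 = g • v.1
    exact kfix_smul_eq S π v.2 (surjInv_eq hπ _)
  { V := kfix S π
    act := act'
    T := S.T.induce (kfix S π)
    tree := by
      have hne : Nonempty (kfix S π) := by
        obtain ⟨v, hv⟩ := exists_fixed subClosed_finVZ S π.ker.subtype Subtype.val_injective
          (not_splits_of_finite)
        exact ⟨⟨v, fun k hk => hv ⟨k, hk⟩⟩⟩
      exact { connected := { preconnected := fun u v => kfix_reachable S π _ u v rfl }
              isAcyclic := S.tree.isAcyclic.induce _ }
    adj := fun q u v huv => by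
      obtain ⟨g, rfl⟩ := hπ q
      show S.T.Adj (π g • u : kfix S π).1 (π g • v : kfix S π).1
      rw [hact, hact]
      exact S.adj g _ _ huv
    noinv := fun q u v huv hh => by
      obtain ⟨g, rfl⟩ := hπ q
      refine S.noinv g u.1 v.1 huv ⟨?_, ?_⟩
      · rw [← hact, hh.1]
      · rw [← hact, hh.2]
    fin := by
      obtain ⟨F, hF, h⟩ := S.fin
      refine ⟨{x | (x.1.1, x.2.1) ∈ F}, ?_, fun u v huv => ?_⟩
      · refine hF.preimage (f := fun x : kfix S π × kfix S π => (x.1.1, x.2.1)) ?_
        rintro ⟨a, b⟩ - ⟨c, d⟩ - hab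
        rw [Prod.mk.injEq] at hab
        exact Prod.ext (Subtype.ext hab.1) (Subtype.ext hab.2)
      · obtain ⟨g, hg⟩ := h u.1 v.1 huv
        refine ⟨π g, ?_⟩
        show ((π g • u : kfix S π).1, (π g • v : kfix S π).1) ∈ F
        rw [hact, hact]
        exact hg
    edge := fun u v huv => by
      have hmem : ∀ g : G, g ∈ stabilizer G u.1 ⊓ stabilizer G v.1 ↔
          π g ∈ @stabilizer Q (kfix S π) _ act' u ⊓ @stabilizer Q (kfix S π) _ act' v := by
        intro g
        rw [Subgroup.mem_inf, Subgroup.mem_inf, mem_stabilizer_iff, mem_stabilizer_iff,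
          mem_stabilizer_iff, mem_stabilizer_iff, Subtype.ext_iff, Subtype.ext_iff, hact, hact]
      let f : ↥(stabilizer G u.1 ⊓ stabilizer G v.1) →*
          ↥(@stabilizer Q (kfix S π) _ act' u ⊓ @stabilizer Q (kfix S π) _ act' v) :=
        (π.comp (Subgroup.subtype _)).codRestrict _ (fun x => (hmem x.1).1 x.2)
      have hfk : Finite f.ker := finite_ker_restrict π _ _ f (fun _ => rfl)
      refine finVZ_of_surjective f ?_ (S.edge _ _ huv)
      rintro ⟨q, hq⟩
      obtain ⟨g, rfl⟩ := hπ q
      exact ⟨⟨g, (hmem g).2 hq⟩, rfl⟩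
    nofix := fun v => by
      obtain ⟨g, hg⟩ := S.nofix v.1
      refine ⟨π g, fun h => hg ?_⟩
      rw [← hact, h] }

end Pool.Agent.Helper13.SA
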