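import Pool.Agent.Helper13.SA.FiniteKernel

/-! Strong accessibility and quotients by finite normal subgroups. -/

namespace Pool.Agent.Helper13.SA

open SimpleGraph Function MulAction

theorem splits_push {G Q : Type} [Group G] [Group Q] (π : G →* Q) (hπ : Surjective π)
    [Finite π.ker] (h : Splits FinVZ G) : Splits FinVZ Q := h.elim fun S => ⟨S.push π hπ⟩

theorem splits_pull {G Q : Type} [Group G] [Group Q] (π : G →* Q) (hπ : Surjective π)
    [Finite π.ker] (h : Splits FinVZ Q) : Splits FinVZ G := h.elim fun S => ⟨S.pull π hπ⟩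

theorem reach_pull : ∀ (n : ℕ) (G Q : Type) [Group G] [Group Q] (π : G →* Q), Surjective π →
    Finite π.ker → ReachIn FinVZ (NS FinVZ) n Q → ReachIn FinVZ (NS FinVZ) n G := by
  intro n
  induction n with
  | zero => intro G Q _ _ π hπ _ h h'; exact h (splits_push π hπ h')
  | succ n ih =>
    intro G Q _ _ π hπ hk h
    rcases h with h | ⟨S, hS⟩
    · exact Or.inl fun h' => h (splits_push π hπ h')
    · refine Or.inr ⟨S.pull π hπ, fun v => ?_⟩
      let f : @stabilizer G (S.pull π hπ).V _ (S.pull π hπ).act v →* @stabilizer Q S.V _ S.act v :=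
        (π.comp (Subgroup.subtype _)).codRestrict _ (fun x => x.2)
      refine ih _ _ f ?_ (finite_ker_restrict π _ _ f (fun _ => rfl)) (hS v)
      rintro ⟨q, hq⟩
      obtain ⟨g, rfl⟩ := hπ q
      exact ⟨⟨g, hq⟩, rfl⟩

theorem reach_push : ∀ (n : ℕ) (G Q : Type) [Group G] [Group Q] (π : G →* Q), Surjective π →
    Finite π.ker → ReachIn FinVZ (NS FinVZ) n G → ReachIn FinVZ (NS FinVZ) n Q := by
  intro n
  induction n with
  | zero => intro G Q _ _ π hπ _ h h'; exact h (splits_pull π hπ h')
  | succ n ih =>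
    intro G Q _ _ π hπ hk h
    rcases h with h | ⟨S, hS⟩
    · exact Or.inl fun h' => h (splits_pull π hπ h')
    · refine Or.inr ⟨S.push π hπ, fun v => ?_⟩
      have hact : ∀ (g : G) (v : (S.push π hπ).V), ((π g • v : (S.push π hπ).V) : kfix S π).1 =
          g • (v : kfix S π).1 := fun g v => by
        show surjInv hπ (π g) • (v : kfix S π).1 = g • (v : kfix S π).1
        exact kfix_smul_eq S π (v : kfix S π).2 (surjInv_eq hπ _)
      have hmem : ∀ g : G, g ∈ stabilizer G (v : kfix S π).1 ↔
          π g ∈ @stabilizer Q (S.push π hπ).V _ (S.push π hπ).act v := by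
        intro g
        rw [mem_stabilizer_iff, mem_stabilizer_iff]
        constructor
        · intro h
          apply Subtype.ext
          rw [hact]
          exact h
        · intro h
          have h1 := hact g v
          rw [h] at h1
          exact h1.symm
      let f : stabilizer G (v : kfix S π).1 →* @stabilizer Q (S.push π hπ).V _ (S.push π hπ).act v :=
        (π.comp (Subgroup.subtype _)).codRestrict _ (fun x => (hmem x.1).1 x.2)
      refine ih _ _ f ?_ (finite_ker_restrict π _ _ f (fun _ => rfl)) (hS _)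
      rintro ⟨q, hq⟩
      obtain ⟨g, rfl⟩ := hπ q
      exact ⟨⟨g, (hmem g).2 hq⟩, rfl⟩

/-- **Finite normal subgroups do not matter.** -/
theorem sa_iff_of_finite_ker {G Q : Type} [Group G] [Group Q] (π : G →* Q) (hπ : Surjective π)
    (hk : Finite π.ker) : StronglyAccessible FinVZ G ↔ StronglyAccessible FinVZ Q := by
  rw [sa_iff subClosed_finVZ, sa_iff subClosed_finVZ]
  constructor
  · rintro ⟨n, hn⟩
    exact ⟨n, reach_push n G Q π hπ hk hn⟩
  · rintro ⟨n, hn⟩
    exact ⟨n, reach_pull n G Q π hπ hk hn⟩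

theorem permanence :
    (∀ (G : Type) [Group G] (n : ℕ) (A : Set (Subgroup G)), StopsAt FinVZ n G A →
      ∀ H : Subgroup G, H.FG →
        (∀ B ∈ A, ∀ g : G, (H ⊓ cj g B).FG → StronglyAccessible FinVZ ↥(H ⊓ cj g B)) →
        StronglyAccessible FinVZ H) ∧
    (∀ (G Q : Type) [Group G] [Group Q] (π : G →* Q), Function.Surjective π → Finite π.ker →
      (StronglyAccessible FinVZ G ↔ StronglyAccessible FinVZ Q)) := by
  refine ⟨?_, fun G Q _ _ π hπ hk => sa_iff_of_finite_ker π hπ hk⟩
  intro G _ n A h H hH hA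
  refine sa_subgroup good_finVZ n G A h H H.subtype Subtype.val_injective
    ((Group.fg_iff_subgroup_fg H).2 hH) ?_
  intro B hB g hfg
  let e : ↥((cj g B).comap H.subtype) ≃* ↥(H ⊓ cj g B) :=
    { toFun := fun x => ⟨x.1.1, x.1.2, x.2⟩
      invFun := fun x => ⟨⟨x.1, x.2.1⟩, x.2.2⟩
      left_inv := fun _ => rfl
      right_inv := fun _ => rfl
      map_mul' := fun _ _ => rfl }
  refine sa_congr subClosed_finVZ e (hA B hB g ?_)
  exact (Group.fg_iff_subgroup_fg _).1
    (Group.fg_of_surjective (f := e.toMonoidHom) e.surjective)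

end Pool.Agent.Helper13.SA
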