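import Pool.Agent.Helper13.SA.FinVZ

/-! Processes with their terminal groups, and processes as depth bounds. -/

namespace Pool.Agent.Helper13.SA

open SimpleGraph Function MulAction

variable {C : GroupClass} {G H : Type} [Group G] [Group H]

/-- the class of groups that do not split -/
def NS (C : GroupClass) : GroupClass := fun G _ => ¬ Splits C G

theorem isoClosed_ns (hC : SubClosed C) : IsoClosed (NS C) := fun _ _ _ _ e h h' =>
  h ((splits_iff hC e).1 h')

/-- A set of representatives of the orbits of vertices. -/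
theorem exists_reps (S : Splitting C G) : ∃ R : Set S.V, ∀ v : S.V, ∃! r, r ∈ R ∧ ∃ g : G, g • v = r := by
  refine ⟨Set.range (fun x : orbitRel.Quotient G S.V => Quotient.out x), fun v => ?_⟩
  have h1 : (orbitRel G S.V).r (Quotient.mk (orbitRel G S.V) v).out v :=
    Quotient.exact (Quotient.out_eq (Quotient.mk (orbitRel G S.V) v))
  obtain ⟨g, hg⟩ := h1
  refine ⟨(Quotient.mk (orbitRel G S.V) v).out, ⟨⟨_, rfl⟩, g, hg⟩, ?_⟩
  rintro _ ⟨⟨x, rfl⟩, g', hg'⟩
  have h2 : x = Quotient.mk (orbitRel G S.V) v := by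
    rw [← Quotient.out_eq x]
    exact Quotient.sound ⟨g', hg'⟩
  show Quotient.out x = _
  rw [h2]

theorem reachIn_of_stopsAt (hC : SubClosed C) : ∀ (n : ℕ) (G : Type) [Group G] (A : Set (Subgroup G)),
    StopsAt C n G A → ReachIn C (NS C) n G := by
  intro n
  induction n with
  | zero => intro G _ A h; exact h.1
  | succ n ih =>
    intro G _ A h
    rcases h with h | ⟨S, R, B, hR, hB, -⟩
    · exact Or.inl h.1
    · refine Or.inr ⟨S, fun v => ?_⟩
      obtain ⟨r, ⟨hr, g, hg⟩, -⟩ := hR v
      exact reachIn_congr hC (isoClosed_ns hC) n _ _ (stabilizerEquivStabilizer hg.symm)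
        (ih _ _ (hB r hr))

theorem stopsAt_of_reachIn : ∀ (n : ℕ) (G : Type) [Group G],
    ReachIn C (NS C) n G → ∃ A, StopsAt C n G A := by
  intro n
  induction n with
  | zero => intro G _ h; exact ⟨{⊤}, h, rfl⟩
  | succ n ih =>
    intro G _ h
    rcases h with h | ⟨S, hS⟩
    · exact ⟨{⊤}, Or.inl ⟨h, rfl⟩⟩
    · obtain ⟨R, hR⟩ := exists_reps S
      choose B hB using fun v => ih _ (hS v)
      exact ⟨_, Or.inr ⟨S, R, B, hR, fun v _ => hB v, rfl⟩⟩

theorem sa_iff (hC : SubClosed C) : StronglyAccessible C G ↔ ∃ n, ReachIn C (NS C) n G := by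
  constructor
  · rintro ⟨n, A, h⟩
    exact ⟨n, reachIn_of_stopsAt hC n G A h⟩
  · rintro ⟨n, h⟩
    obtain ⟨A, hA⟩ := stopsAt_of_reachIn n G h
    exact ⟨n, A, hA⟩

theorem sa_congr (hC : SubClosed C) (e : H ≃* G) (h : StronglyAccessible C G) :
    StronglyAccessible C H := by
  rw [sa_iff hC] at h ⊢
  obtain ⟨n, hn⟩ := h
  exact ⟨n, reachIn_congr hC (isoClosed_ns hC) n _ _ e hn⟩

/-- There are finitely many orbits of vertices. -/
theorem Splitting.finite_vertices (S : Splitting C G) :
    ∃ F : Set S.V, F.Finite ∧ ∀ v, ∃ g : G, g • v ∈ F := by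
  obtain ⟨F, hF, h⟩ := S.fin
  refine ⟨Prod.fst '' F, hF.image _, fun v => ?_⟩
  obtain ⟨g, hg⟩ := S.nofix v
  obtain ⟨g', hg'⟩ := h _ _ (adj_toward S.tree (Ne.symm hg))
  exact ⟨g', _, hg', rfl⟩

/-- If all vertex groups are strongly accessible then so is the group. -/
theorem sa_of_stabilizers (hC : SubClosed C) (S : Splitting C G)
    (h : ∀ v : S.V, StronglyAccessible C (stabilizer G v)) : StronglyAccessible C G := by
  simp_rw [sa_iff hC] at h ⊢
  choose n hn using h
  obtain ⟨F, hF, hFv⟩ := S.finite_vertices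
  obtain ⟨N, hN⟩ := (hF.image n).bddAbove
  refine ⟨N + 1, Or.inr ⟨S, fun v => ?_⟩⟩
  obtain ⟨g, hg⟩ := hFv v
  have h1 : ReachIn C (NS C) N (stabilizer G (g • v)) :=
    reachIn_mono (hN ⟨_, hg, rfl⟩) _ (hn (g • v))
  exact reachIn_congr hC (isoClosed_ns hC) N _ _ (stabilizerEquivStabilizer rfl) h1

/-- finitely many stages up to `C`, then one more stage -/
theorem reachIn_ns_of_term (hC1 : ∀ (G : Type) [Group G], C G → ReachIn C (NS C) 1 G) (n : ℕ)
    (G : Type) [Group G] (h : ReachIn C (Term C) n G) : ReachIn C (NS C) (n + 1) G := by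
  refine reachIn_reachIn n G (reachIn_imp ?_ n G h)
  intro G _ h
  rcases h with h | h
  · exact Or.inl h
  · exact hC1 G h

theorem term_of_ns (n : ℕ) (G : Type) [Group G] (h : ReachIn C (NS C) n G) :
    ReachIn C (Term C) n G := reachIn_imp (fun _ _ h => Or.inl h) n G h

/-- `C` closed under subgroups, finitely generated members, each of them with all vertex groups of
splittings non-splitting. -/
structure Good (C : GroupClass) : Prop where
  sub : SubClosed C
  fg : ∀ (G : Type) [Group G], C G → Group.FG G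
  one : ∀ (G : Type) [Group G], C G → ReachIn C (NS C) 1 G

theorem good_finVZ : Good FinVZ := by
  refine ⟨subClosed_finVZ, fg_finVZ, fun G _ h => ?_⟩
  by_cases hs : Splits FinVZ G
  · obtain ⟨S⟩ := hs
    refine Or.inr ⟨S, fun v => ?_⟩
    have := finite_stabilizer h S v
    exact not_splits_of_finite
  · exact Or.inl hs

/-- **Choice independence.** Stage bound for vertex groups of arbitrary splittings. -/
theorem reach_vertex (hC : Good C) [Group.FG G] {n : ℕ} (h : ReachIn C (NS C) n G)
    (S : Splitting C G) (v : S.V) : ReachIn C (NS C) (n + 1) (stabilizer G v) :=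
  reachIn_ns_of_term hC.one n _ (reach_stabilizer hC.sub hC.fg (term_of_ns n _ h) S v)

theorem sa_vertex (hC : Good C) [Group.FG G] (h : StronglyAccessible C G) (S : Splitting C G)
    (v : S.V) : StronglyAccessible C (stabilizer G v) := by
  rw [sa_iff hC.sub] at h ⊢
  obtain ⟨n, hn⟩ := h
  exact ⟨n + 1, reach_vertex hC hn S v⟩

theorem sa_iff_stabilizers (hC : Good C) [Group.FG G] (S : Splitting C G) :
    StronglyAccessible C G ↔ ∀ v : S.V, StronglyAccessible C (stabilizer G v) :=
  ⟨fun h v => sa_vertex hC h S v, fun h => sa_of_stabilizers hC.sub S h⟩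

end Pool.Agent.Helper13.SA
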