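import Pool.Agent.Helper13.SA.VN12

/-! The number of splittings over finite groups in the process of iterated splittings. -/

namespace Pool.Agent.Helper13.SA

open SimpleGraph Function MulAction

variable {Γ : Type} [Group Γ]

theorem bound_pos {B : ℕ} (hB : ∀ K : Subgroup Γ, Finite K → Nat.card K ≤ B) : 0 < B := by
  have h := hB ⊥ inferInstance
  rw [Subgroup.card_bot] at h
  omega

theorem run_le {B : ℕ} (hB : ∀ K : Subgroup Γ, Finite K → Nat.card K ≤ B) {H : Type} [Group H]
    {k : ℕ} (h : Run H k) : ∀ f : H →* Γ, Injective f → Group.FG H → (k : ℝ) ≤ B * wt f := by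
  classical
  have hB0 : (0 : ℝ) < B := by exact_mod_cast bound_pos hB
  induction h with
  | stop G =>
    intro f hf hfg
    have := wt_nonneg hf
    rw [Nat.cast_zero]
    positivity
  | split G S R κ hR _ ih =>
    intro f hf hfg
    have h1 := wt_ineq S hf hB R hR
    have h2 : ∀ v ∈ R, (κ v : ℝ) ≤ B * wt (f.comp (stabilizer G v).subtype) := fun v hv =>
      ih v hv _ (comp_subtype_inj hf _) (stab_fg fg_finVZ S v)
    have h3 : ((∑ v ∈ R, κ v : ℕ) : ℝ) ≤
        B * ∑ v ∈ R, wt (f.comp (stabilizer G v).subtype) := by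
      rw [Nat.cast_sum, Finset.mul_sum]
      exact Finset.sum_le_sum h2
    have h4 : (((if OverFinite S then 1 else 0 : ℕ)) : ℝ) =
        B * (if OverFinite S then (B : ℝ)⁻¹ else 0) := by
      split_ifs
      · rw [mul_inv_cancel₀ hB0.ne', Nat.cast_one]
      · rw [mul_zero, Nat.cast_zero]
    have h5 : (B : ℝ) * (∑ v ∈ R, wt (f.comp (stabilizer G v).subtype) +
        (if OverFinite S then (B : ℝ)⁻¹ else 0)) ≤ B * wt f :=
      mul_le_mul_of_nonneg_left h1 hB0.le
    rw [Nat.cast_add]
    rw [mul_add, ← h4] at h5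
    refine le_trans ?_ h5
    gcongr

/-- In every run at most `B * (d - 1)` of the splittings satisfy `OverFinite`. -/
theorem run_bound (G : Type) [Group G] (d B k : ℕ) (g : Fin d → G)
    (hg : Subgroup.closure (Set.range g) = ⊤)
    (hB : ∀ K : Subgroup G, Finite K → Nat.card K ≤ B) (h : Run G k) : k ≤ B * (d - 1) := by
  have hs : Gen g := hg
  have hfg : Group.FG G := Group.fg_iff.2 ⟨Set.range g, hg, Set.finite_range g⟩
  have h1 := run_le hB h (MonoidHom.id G) injective_id hfg
  by_cases hfin : Finite G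
  · have h2 : wt (MonoidHom.id G) = 0 := if_pos hfin
    rw [h2, mul_zero] at h1
    have h3 : k = 0 := by
      have : (k : ℝ) ≤ (0 : ℕ) := by simpa using h1
      exact Nat.le_zero.1 (Nat.cast_le.1 this)
    omega
  · have h2 : wt (MonoidHom.id G) = del (MonoidHom.id G) - 1 := if_neg hfin
    have hinf : Infinite G := not_finite_iff_infinite.1 hfin
    have h3 := del_le_card (MonoidHom.id G) hs
    rw [Fintype.card_fin] at h3
    have h4 := one_le_del (f := MonoidHom.id G) injective_id
    have hd : 1 ≤ d := by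
      have : (1 : ℝ) ≤ d := h4.trans h3
      exact_mod_cast this
    rw [h2] at h1
    have h5 : (k : ℝ) ≤ B * ((d : ℝ) - 1) := by
      refine h1.trans ?_
      have : del (MonoidHom.id G) - 1 ≤ (d : ℝ) - 1 := by linarith
      exact mul_le_mul_of_nonneg_left this (Nat.cast_nonneg B)
    have h6 : ((B * (d - 1) : ℕ) : ℝ) = B * ((d : ℝ) - 1) := by
      rw [Nat.cast_mul, Nat.cast_sub hd, Nat.cast_one]
    rw [← h6] at h5
    exact_mod_cast h5

section Chain

variable {H : Type} [Group H]

theorem exists_reps_finset (S : Splitting FinVZ H) (v : S.V) : ∃ R : Finset S.V,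
    (∀ v : S.V, ∃! r, r ∈ R ∧ ∃ g : H, g • v = r) ∧ v ∈ R := by
  classical
  obtain ⟨F, hF, hFv⟩ := S.finite_vertices
  have := hF.to_subtype
  have hfin : Finite (orbitRel.Quotient H S.V) := by
    refine Finite.of_surjective
      (fun x : F => (Quotient.mk (orbitRel H S.V) x.1 : orbitRel.Quotient H S.V)) ?_
    intro q
    obtain ⟨g, hg⟩ := hFv q.out
    refine ⟨⟨_, hg⟩, ?_⟩
    refine Eq.trans ?_ (Quotient.out_eq q)
    exact Quotient.sound ⟨g, rfl⟩
  let σ : orbitRel.Quotient H S.V → S.V := fun q =>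
    if q = Quotient.mk (orbitRel H S.V) v then v else Quotient.out q
  have hσ : ∀ q, Quotient.mk (orbitRel H S.V) (σ q) = q := by
    intro q
    show Quotient.mk (orbitRel H S.V)
      (if q = Quotient.mk (orbitRel H S.V) v then v else Quotient.out q) = q
    split_ifs with h
    · exact h.symm
    · exact Quotient.out_eq q
  refine ⟨(Set.finite_range σ).toFinset, fun u => ?_, ?_⟩
  · have h1 : (orbitRel H S.V).r (σ (Quotient.mk (orbitRel H S.V) u)) u :=
      Quotient.exact (hσ (Quotient.mk (orbitRel H S.V) u))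
    obtain ⟨g, hg⟩ := h1
    refine ⟨σ (Quotient.mk (orbitRel H S.V) u), ⟨by simp, g, hg⟩, ?_⟩
    rintro r ⟨hr, g', hg'⟩
    rw [Set.Finite.mem_toFinset] at hr
    obtain ⟨q, rfl⟩ := hr
    have h2 : q = Quotient.mk (orbitRel H S.V) u := by
      rw [← hσ q]
      exact Quotient.sound ⟨g', hg'⟩
    rw [h2]
  · rw [Set.Finite.mem_toFinset]
    exact ⟨Quotient.mk (orbitRel H S.V) v, if_pos rfl⟩

theorem Below.trans {G H K : Type} [Group G] [Group H] [Group K] (h1 : Below G H)
    (h2 : Below H K) : Below G K := by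
  induction h2 with
  | refl => exact h1
  | step L S v _ ih => exact Below.step L S v ih

theorem below_wt {B : ℕ} (hB : ∀ K : Subgroup Γ, Finite K → Nat.card K ≤ B) {K : Type} [Group K]
    (h : Below H K) (hH : Group.FG H) (f : H →* Γ) (hf : Injective f) :
    Group.FG K ∧ ∃ f' : K →* Γ, Injective f' ∧ wt f' ≤ wt f := by
  classical
  induction h with
  | refl => exact ⟨hH, f, hf, le_rfl⟩
  | step L S v _ ih =>
    obtain ⟨hL, f', hf', hw⟩ := ih
    refine ⟨stab_fg fg_finVZ S v, f'.comp (stabilizer L v).subtype, comp_subtype_inj hf' _, ?_⟩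
    obtain ⟨R, hR, hv⟩ := exists_reps_finset S v
    have h1 := wt_ineq S hf' hB R hR
    have h2 : wt (f'.comp (stabilizer L v).subtype) ≤
        ∑ v ∈ R, wt (f'.comp (stabilizer L v).subtype) :=
      Finset.single_le_sum (f := fun v => wt (f'.comp (stabilizer L v).subtype))
        (fun u _ => by
          have := stab_fg fg_finVZ S u
          exact wt_nonneg (comp_subtype_inj hf' _)) hv
    have h3 : (0 : ℝ) ≤ if OverFinite S then (B : ℝ)⁻¹ else 0 := by
      split_ifs
      · positivity
      · exact le_rfl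
    linarith

theorem sa_of_finite [Finite H] : StronglyAccessible FinVZ H :=
  ⟨0, {⊤}, not_splits_of_finite, rfl⟩

theorem sa_of_vFree (h : VFree H) : StronglyAccessible FinVZ H := by
  rcases h with h | ⟨S, hS⟩
  · exact sa_of_finite
  · let S' : Splitting FinVZ H := { S with edge := fun u v huv => Or.inl (S.edge u v huv) }
    refine sa_of_stabilizers subClosed_finVZ S' fun v => ?_
    have : Finite (stabilizer H v) := hS v
    exact sa_of_finite

/-- A splitting over finite groups of a group which is not strongly accessible leads to a vertex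
group of smaller weight which is not strongly accessible. -/
theorem exists_drop {B : ℕ} (hB : ∀ K : Subgroup Γ, Finite K → Nat.card K ≤ B) (hH : Group.FG H)
    (f : H →* Γ) (hf : Injective f) (hns : ¬ StronglyAccessible FinVZ H) (hs : Splits FinC H) :
    ∃ (K : Type) (_ : Group K), Below H K ∧ ¬ StronglyAccessible FinVZ K ∧ Group.FG K ∧
      ∃ f' : K →* Γ, Injective f' ∧ wt f' + (B : ℝ)⁻¹ ≤ wt f := by
  classical
  obtain ⟨S⟩ := hs
  let S' : Splitting FinVZ H := { S with edge := fun u v huv => Or.inl (S.edge u v huv) }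
  have hO : OverFinite S' := Or.inl ⟨fun u v huv => S.edge u v huv, fun h => hns (sa_of_vFree h)⟩
  obtain ⟨v0⟩ : Nonempty S'.V := S'.tree.connected.nonempty
  obtain ⟨R, hR, -⟩ := exists_reps_finset S' v0
  have h1 : ∃ r ∈ R, ¬ StronglyAccessible FinVZ (stabilizer H r) := by
    by_contra hcon
    push Not at hcon
    refine hns (sa_of_stabilizers subClosed_finVZ S' fun v => ?_)
    obtain ⟨r, ⟨hr, g, hg⟩, -⟩ := hR v
    exact sa_congr subClosed_finVZ (stabilizerEquivStabilizer hg.symm) (hcon r hr)
  obtain ⟨r, hr, hr'⟩ := h1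
  refine ⟨stabilizer H r, inferInstance, Below.step H S' r Below.refl, hr',
    stab_fg fg_finVZ S' r, f.comp (stabilizer H r).subtype, comp_subtype_inj hf _, ?_⟩
  have h2 := wt_ineq S' hf hB R hR
  rw [if_pos hO] at h2
  have h3 : wt (f.comp (stabilizer H r).subtype) ≤
      ∑ v ∈ R, wt (f.comp (stabilizer H v).subtype) :=
    Finset.single_le_sum (f := fun v => wt (f.comp (stabilizer H v).subtype))
      (fun u _ => by
        have := stab_fg fg_finVZ S' u
        exact wt_nonneg (comp_subtype_inj hf _)) hr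
  linarith

/-- Reduction to one-ended groups. -/
theorem one_ended (G : Type) [Group G] [hG : Group.FG G]
    (hB : ∃ B : ℕ, ∀ K : Subgroup G, Finite K → Nat.card K ≤ B)
    (hns : ¬ StronglyAccessible FinVZ G) :
    ∃ (H : Type) (_ : Group H), Below G H ∧ ¬ StronglyAccessible FinVZ H ∧
      ∀ (K : Type) [Group K], Below H K → ¬ StronglyAccessible FinVZ K →
        Infinite K ∧ ¬ Splits FinC K := by
  obtain ⟨B, hB⟩ := hB
  have hB0 : (0 : ℝ) < B := by exact_mod_cast bound_pos hB
  by_contra hcon
  push Not at hcon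
  have key : ∀ n : ℕ, ∃ (H : Type) (_ : Group H), Below G H ∧ ¬ StronglyAccessible FinVZ H ∧
      Group.FG H ∧ ∃ f : H →* G, Injective f ∧
        wt f + n * (B : ℝ)⁻¹ ≤ wt (MonoidHom.id G) := by
    intro n
    induction n with
    | zero =>
      refine ⟨G, inferInstance, Below.refl, hns, hG, MonoidHom.id G, injective_id, ?_⟩
      simp
    | succ n ih =>
      obtain ⟨H, _, hGH, hH, hHfg, f, hf, hw⟩ := ih
      obtain ⟨K, _, hHK, hK, hK'⟩ := hcon H _ hGH hH
      have hKinf : Infinite K := by
        by_contra h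
        have : Finite K := not_infinite_iff_finite.1 h
        exact hK sa_of_finite
      have hKs : Splits FinC K := hK' hKinf
      obtain ⟨hKfg, f', hf', hw'⟩ := below_wt hB hHK hHfg f hf
      obtain ⟨L, _, hKL, hL, hLfg, f'', hf'', hw''⟩ := exists_drop hB hKfg f' hf' hK hKs
      refine ⟨L, _, hGH.trans (hHK.trans hKL), hL, hLfg, f'', hf'', ?_⟩
      push_cast
      linarith
  obtain ⟨n, hn⟩ := exists_nat_gt (wt (MonoidHom.id G) * B)
  obtain ⟨H, _, -, -, hHfg, f, hf, hw⟩ := key n
  have h1 := wt_nonneg hf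
  have h2 : (n : ℝ) * (B : ℝ)⁻¹ ≤ wt (MonoidHom.id G) := by linarith
  rw [← div_eq_mul_inv, div_le_iff₀ hB0] at h2
  linarith

end Chain

/-- The theorem. -/
theorem finite_splittings :
    (∀ (G : Type) [Group G] (d B k : ℕ) (g : Fin d → G), Subgroup.closure (Set.range g) = ⊤ →
      (∀ K : Subgroup G, Finite K → Nat.card K ≤ B) → Run G k → k ≤ B * (d - 1)) ∧
    (∀ (G : Type) [Group G] [Group.FG G], (∃ B : ℕ, ∀ K : Subgroup G, Finite K → Nat.card K ≤ B) →
      ¬ StronglyAccessible FinVZ G →
      ∃ (H : Type) (_ : Group H), Below G H ∧ ¬ StronglyAccessible FinVZ H ∧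
        ∀ (K : Type) [Group K], Below H K → ¬ StronglyAccessible FinVZ K →
          Infinite K ∧ ¬ Splits FinC K) :=
  ⟨fun G _ d B k g hg hB h => run_bound G d B k g hg hB h,
    fun G _ _ hB hns => one_ended G hB hns⟩

end Pool.Agent.Helper13.SA
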