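import Pool.Agent.Helper13.SA.Defs

/-! Maximal non-splitting subgroups. -/

namespace Pool.Agent.Helper13.SA

/-- the conjugate `g B g⁻¹` -/
def cj {G : Type} [Group G] (g : G) (B : Subgroup G) : Subgroup G :=
  B.map (MulAut.conj g).toMonoidHom

/-- `K` is a maximal finitely generated non-splitting subgroup of `G`, and not in `C`. -/
def MaxNS (C : GroupClass) {G : Type} [Group G] (K : Subgroup G) : Prop :=
  K.FG ∧ ¬ Splits C K ∧ ¬ C K ∧ ∀ K' : Subgroup G, K'.FG → ¬ Splits C K' → K ≤ K' → K' = K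

end Pool.Agent.Helper13.SA
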