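import Pool.Agent.Helper13.SA.Process
import Pool.Agent.Helper13.SA.TermDefs

/-! Uniqueness of the terminal groups outside `C`. -/

namespace Pool.Agent.Helper13.SA

open SimpleGraph Function MulAction

variable {C : GroupClass} {G H : Type} [Group G] [Group H]

theorem mem_cj {g : G} {B : Subgroup G} {x : G} : x ∈ cj g B ↔ g⁻¹ * x * g ∈ B := by
  constructor
  · rintro ⟨y, hy, rfl⟩
    have h : g⁻¹ * ((MulAut.conj g).toMonoidHom y) * g = y := by
      show g⁻¹ * (g * y * g⁻¹) * g = y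
      group
    rw [h]
    exact hy
  · intro h
    refine ⟨g⁻¹ * x * g, h, ?_⟩
    show g * (g⁻¹ * x * g) * g⁻¹ = x
    group

theorem cj_mul (g h : G) (B : Subgroup G) : cj (g * h) B = cj g (cj h B) := by
  ext x
  rw [mem_cj, mem_cj, mem_cj]
  have : (g * h)⁻¹ * x * (g * h) = h⁻¹ * (g⁻¹ * x * g) * h := by group
  rw [this]

theorem cj_of_mem {g : G} {B : Subgroup G} (h : g ∈ B) : cj g B = B := by
  ext x
  rw [mem_cj]
  constructor
  · intro hx
    have := B.mul_mem (B.mul_mem h hx) (B.inv_mem h)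
    have h2 : g * (g⁻¹ * x * g) * g⁻¹ = x := by group
    rwa [h2] at this
  · intro hx
    exact B.mul_mem (B.mul_mem (B.inv_mem h) hx) h

theorem cj_one (B : Subgroup G) : cj 1 B = B := cj_of_mem B.one_mem

theorem cj_mono {g : G} {B B' : Subgroup G} (h : B ≤ B') : cj g B ≤ cj g B' := fun x hx => by
  rw [mem_cj] at hx ⊢
  exact h hx

/-- `B ≃* g B g⁻¹` -/
noncomputable def cjEquiv (g : G) (B : Subgroup G) : B ≃* ↥(cj g B) :=
  B.equivMapOfInjective _ (MulAut.conj g).injective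

/-- subgroups that are contained in each other and class membership -/
theorem SubClosed.of_le (hC : SubClosed C) {K L : Subgroup G} (h : K ≤ L) (hL : C L) : C K :=
  hC _ _ (Subgroup.inclusion h) (Subgroup.inclusion_injective h) hL

theorem cover (hC : SubClosed C) : ∀ (n : ℕ) (G : Type) [Group G] (A : Set (Subgroup G)),
    StopsAt C n G A → ∀ (L : Type) [Group L] (j : L →* G), Injective j → Group.FG L →
    ¬ Splits C L → ∃ B ∈ A, ∃ g : G, ∀ l, g⁻¹ * j l * g ∈ B := by
  intro n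
  induction n with
  | zero =>
    intro G _ A h L _ j _ _ _
    exact ⟨⊤, by rw [h.2]; rfl, 1, fun l => Subgroup.mem_top _⟩
  | succ n ih =>
    intro G _ A h L _ j hj hL hLs
    rcases h with h | ⟨S, R, B, hR, hB, rfl⟩
    · exact ⟨⊤, by rw [h.2]; rfl, 1, fun l => Subgroup.mem_top _⟩
    · obtain ⟨v, hv⟩ := exists_fixed hC S j hj hLs
      obtain ⟨r, ⟨hr, g, hg⟩, -⟩ := hR v
      have hfix : ∀ l, (g * j l * g⁻¹) • r = r := by
        intro l
        rw [mul_smul, mul_smul, ← hg, inv_smul_smul, hv]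
      let j' : L →* stabilizer G r :=
        ((MulAut.conj g).toMonoidHom.comp j).codRestrict _ (fun l => hfix l)
      have hj' : Injective j' := by
        intro a b hab
        have : (MulAut.conj g) (j a) = (MulAut.conj g) (j b) := congrArg Subtype.val hab
        exact hj ((MulAut.conj g).injective this)
      obtain ⟨K, hK, k, hk⟩ := ih _ _ (hB r hr) L j' hj' hL hLs
      refine ⟨_, ⟨r, hr, K, hK, rfl⟩, g⁻¹ * k.1, fun l => ?_⟩
      refine ⟨_, hk l, ?_⟩
      show (k.1)⁻¹ * (g * j l * g⁻¹) * k.1 = _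
      group

theorem members (hC : Good C) : ∀ (n : ℕ) (G : Type) [Group G] (A : Set (Subgroup G)),
    Group.FG G → StopsAt C n G A → ∀ B ∈ A, Group.FG B ∧ ¬ Splits C B := by
  intro n
  have base : ∀ (G : Type) [Group G], Group.FG G → ¬ Splits C G →
      Group.FG (⊤ : Subgroup G) ∧ ¬ Splits C (⊤ : Subgroup G) := by
    intro G _ hG h
    have e : (⊤ : Subgroup G) ≃* G := Subgroup.topEquiv
    exact ⟨Group.fg_of_surjective (f := e.symm.toMonoidHom) e.symm.surjective, fun h' => h ((splits_iff hC.sub e).1 h')⟩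
  induction n with
  | zero =>
    intro G _ A hG h B hB
    rw [h.2] at hB
    rw [Set.mem_singleton_iff.1 hB]
    exact base G hG h.1
  | succ n ih =>
    intro G _ A hG h B hB
    rcases h with h | ⟨S, R, B', hR, hB', rfl⟩
    · rw [h.2] at hB
      rw [Set.mem_singleton_iff.1 hB]
      exact base G hG h.1
    · obtain ⟨v, hv, L, hL, rfl⟩ := hB
      obtain ⟨h1, h2⟩ := ih _ _ (stab_fg hC.fg S v) (hB' v hv) L hL
      have e : L ≃* ↥(L.map (stabilizer G v).subtype) :=
        L.equivMapOfInjective _ Subtype.val_injective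
      exact ⟨Group.fg_of_surjective (f := e.toMonoidHom) e.surjective, fun h' => h2 ((splits_iff hC.sub e).2 h')⟩

theorem malnormal (hC : SubClosed C) : ∀ (n : ℕ) (G : Type) [Group G] (A : Set (Subgroup G)),
    StopsAt C n G A → ∀ B ∈ A, ∀ B' ∈ A, ∀ g : G, ¬ C ↥(B ⊓ cj g B') → B = B' ∧ g ∈ B := by
  intro n
  induction n with
  | zero =>
    intro G _ A h B hB B' hB' g _
    rw [h.2] at hB hB'
    rw [Set.mem_singleton_iff.1 hB, Set.mem_singleton_iff.1 hB']
    exact ⟨rfl, Subgroup.mem_top _⟩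
  | succ n ih =>
    intro G _ A h B hB B' hB' g hg
    rcases h with h | ⟨S, R, Bf, hR, hBf, rfl⟩
    · rw [h.2] at hB hB'
      rw [Set.mem_singleton_iff.1 hB, Set.mem_singleton_iff.1 hB']
      exact ⟨rfl, Subgroup.mem_top _⟩
    · obtain ⟨r, hr, L, hL, rfl⟩ := hB
      obtain ⟨r', hr', L', hL', rfl⟩ := hB'
      have hfix1 : ∀ x : ↥(L.map (stabilizer G r).subtype ⊓
          cj g (L'.map (stabilizer G r').subtype)), x.1 • r = r := by
        intro x
        obtain ⟨y, hy, hxy⟩ := (Subgroup.mem_inf.1 x.2).1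
        rw [← hxy]
        exact y.2
      have hfix2 : ∀ x : ↥(L.map (stabilizer G r).subtype ⊓
          cj g (L'.map (stabilizer G r').subtype)), x.1 • g • r' = g • r' := by
        rintro x
        have hx := (Subgroup.mem_inf.1 x.2).2
        rw [mem_cj] at hx
        obtain ⟨y, hy, hxy⟩ := hx
        have h1 : (g⁻¹ * x.1 * g) • r' = r' := by rw [← hxy]; exact y.2
        rw [mul_smul, mul_smul, inv_smul_eq_iff] at h1
        exact h1
      by_cases hrr : r = g • r'
      · have h1 : r' = r := by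
          obtain ⟨r0, -, hu⟩ := hR r
          rw [hu r ⟨hr, 1, one_smul _ _⟩, hu r' ⟨hr', g⁻¹, by rw [hrr, inv_smul_smul]⟩]
        subst h1
        have hgr : g ∈ stabilizer G r' := hrr.symm
        have hnc : ¬ C ↥(L ⊓ cj (⟨g, hgr⟩ : stabilizer G r') L') := by
          intro hc
          apply hg
          let k : ↥(L.map (stabilizer G r').subtype ⊓
              cj g (L'.map (stabilizer G r').subtype)) →*
              ↥(L ⊓ cj (⟨g, hgr⟩ : stabilizer G r') L') :=
            { toFun := fun x => ⟨⟨x.1, hfix1 x⟩, by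
                obtain ⟨hx1, hx2⟩ := Subgroup.mem_inf.1 x.2
                refine Subgroup.mem_inf.2 ⟨?_, ?_⟩
                · obtain ⟨y, hy, hxy⟩ := hx1
                  have : (⟨x.1, hfix1 x⟩ : stabilizer G r') = y := Subtype.ext hxy.symm
                  rw [this]
                  exact hy
                · rw [mem_cj] at hx2 ⊢
                  obtain ⟨y, hy, hxy⟩ := hx2
                  have : (⟨g, hgr⟩ : stabilizer G r')⁻¹ * ⟨x.1, hfix1 x⟩ * ⟨g, hgr⟩ = y :=
                    Subtype.ext hxy.symm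
                  rw [this]
                  exact hy⟩
              map_one' := rfl
              map_mul' := fun _ _ => rfl }
          refine hC _ _ k ?_ hc
          intro a b hab
          have h2 : (k a).1.1 = (k b).1.1 := by rw [hab]
          exact Subtype.ext h2
        obtain ⟨h2, h3⟩ := ih _ _ (hBf r' hr) L hL L' hL' ⟨g, hgr⟩ hnc
        subst h2
        exact ⟨rfl, ⟨_, h3, rfl⟩⟩
      · exact absurd (two_fixed hC S (Subgroup.subtype _) Subtype.val_injective hrr hfix1 hfix2) hg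

theorem Splitting.reps_finite (S : Splitting C G) {R : Set S.V}
    (hR : ∀ v : S.V, ∃! r, r ∈ R ∧ ∃ g : G, g • v = r) : R.Finite := by
  obtain ⟨F, hF, hFv⟩ := S.finite_vertices
  choose k hk using hFv
  refine Set.Finite.of_finite_image (f := fun v => k v • v) (hF.subset ?_) ?_
  · rintro _ ⟨v, -, rfl⟩
    exact hk v
  · intro a ha b hb hab
    obtain ⟨r, -, hr⟩ := hR a
    rw [hr a ⟨ha, 1, one_smul _ _⟩, hr b ⟨hb, (k b)⁻¹ * k a, ?_⟩]
    have h1 : k a • a = k b • b := hab
    rw [mul_smul, h1, inv_smul_smul]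

theorem terminal_finite : ∀ (n : ℕ) (G : Type) [Group G] (A : Set (Subgroup G)),
    StopsAt C n G A → A.Finite := by
  intro n
  induction n with
  | zero => intro G _ A h; rw [h.2]; exact Set.finite_singleton _
  | succ n ih =>
    intro G _ A h
    rcases h with h | ⟨S, R, B, hR, hB, rfl⟩
    · rw [h.2]; exact Set.finite_singleton _
    · have h1 : {K | ∃ v ∈ R, ∃ L ∈ B v, K = L.map (stabilizer G v).subtype} =
          ⋃ v ∈ R, (fun L : Subgroup (stabilizer G v) => L.map (stabilizer G v).subtype) '' B v := by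
        ext K
        simp only [Set.mem_iUnion, Set.mem_image]
        constructor
        · rintro ⟨v, hv, L, hL, rfl⟩; exact ⟨v, hv, L, hL, rfl⟩
        · rintro ⟨v, hv, L, hL, rfl⟩; exact ⟨v, hv, L, hL, rfl⟩
      rw [h1]
      exact (S.reps_finite hR).biUnion fun v hv => (ih _ _ (hB v hv)).image _

theorem cover' (hC : SubClosed C) {n : ℕ} {A : Set (Subgroup G)} (h : StopsAt C n G A)
    (K : Subgroup G) (hK : K.FG) (hKs : ¬ Splits C K) : ∃ B ∈ A, ∃ g : G, K ≤ cj g B := by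
  obtain ⟨B, hB, g, hg⟩ := cover hC n G A h K K.subtype Subtype.val_injective
    ((Group.fg_iff_subgroup_fg K).2 hK) hKs
  refine ⟨B, hB, g, fun x hx => ?_⟩
  rw [mem_cj]
  exact hg ⟨x, hx⟩

theorem c_cj (hC : SubClosed C) (g : G) (B : Subgroup G) : C ↥(cj g B) ↔ C B :=
  (hC.iff (cjEquiv g B)).symm

/-- **Uniqueness of the terminal groups.** -/
theorem maxNS_iff (hC : Good C) [hG : Group.FG G] {n : ℕ} {A : Set (Subgroup G)}
    (h : StopsAt C n G A) (K : Subgroup G) :
    MaxNS C K ↔ ¬ C K ∧ ∃ B ∈ A, ∃ g : G, K = cj g B := by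
  have key : ∀ B ∈ A, ¬ C B → ∀ (g : G) (K' : Subgroup G), K'.FG → ¬ Splits C K' →
      cj g B ≤ K' → K' = cj g B := by
    intro B hB hBC g K' h1 h2 h3
    obtain ⟨B', hB', g', hg'⟩ := cover' hC.sub h K' h1 h2
    have h4 : cj g B ≤ cj g' B' := h3.trans hg'
    have h5 : B ≤ cj (g⁻¹ * g') B' := by
      intro x hx
      have h6 : g * x * g⁻¹ ∈ cj g B := by
        rw [mem_cj]
        have : g⁻¹ * (g * x * g⁻¹) * g = x := by group
        rw [this]; exact hx
      have h7 := h4 h6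
      rw [mem_cj] at h7 ⊢
      have : (g⁻¹ * g')⁻¹ * x * (g⁻¹ * g') = g'⁻¹ * (g * x * g⁻¹) * g' := by group
      rw [this]; exact h7
    have h6 : ¬ C ↥(B ⊓ cj (g⁻¹ * g') B') := by
      rw [inf_eq_left.2 h5]; exact hBC
    obtain ⟨h7, h8⟩ := malnormal hC.sub n G A h B hB B' hB' _ h6
    subst h7
    have h9 : cj g' B = cj g B := by
      have : g' = g * (g⁻¹ * g') := by group
      rw [this, cj_mul, cj_of_mem h8]
    exact le_antisymm (h9 ▸ hg') h3
  constructor
  · rintro ⟨h1, h2, h3, h4⟩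
    obtain ⟨B, hB, g, hg⟩ := cover' hC.sub h K h1 h2
    refine ⟨h3, B, hB, g, ?_⟩
    obtain ⟨h5, h6⟩ := members hC n G A hG h B hB
    have h7 : Group.FG ↥(cj g B) := Group.fg_of_surjective (f := (cjEquiv g B).toMonoidHom) (cjEquiv g B).surjective
    have h8 : ¬ Splits C ↥(cj g B) := fun h' => h6 ((splits_iff hC.sub (cjEquiv g B)).2 h')
    exact (h4 _ ((Group.fg_iff_subgroup_fg _).1 h7) h8 hg).symm
  · rintro ⟨h1, B, hB, g, rfl⟩
    obtain ⟨h5, h6⟩ := members hC n G A hG h B hB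
    have h7 : Group.FG ↥(cj g B) := Group.fg_of_surjective (f := (cjEquiv g B).toMonoidHom) (cjEquiv g B).surjective
    have h8 : ¬ Splits C ↥(cj g B) := fun h' => h6 ((splits_iff hC.sub (cjEquiv g B)).2 h')
    exact ⟨(Group.fg_iff_subgroup_fg _).1 h7, h8, h1,
      key B hB (fun h' => h1 ((c_cj hC.sub g B).2 h')) g⟩

theorem unique_conj (hC : Good C) [hG : Group.FG G] {n m : ℕ} {A A' : Set (Subgroup G)}
    (h : StopsAt C n G A) (h' : StopsAt C m G A') (B : Subgroup G) (hB : B ∈ A) (hBC : ¬ C B) :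
    ∃! B', B' ∈ A' ∧ ∃ g : G, B = cj g B' := by
  have h1 : MaxNS C B := (maxNS_iff hC h B).2 ⟨hBC, B, hB, 1, (cj_one B).symm⟩
  obtain ⟨-, B', hB', g, hg⟩ := (maxNS_iff hC h' B).1 h1
  refine ⟨B', ⟨hB', g, hg⟩, ?_⟩
  rintro B'' ⟨hB'', g', hg'⟩
  have h2 : cj (g⁻¹ * g') B'' = B' := by
    rw [cj_mul, ← hg', hg, ← cj_mul, inv_mul_cancel, cj_one]
  have h3 : ¬ C ↥(B' ⊓ cj (g⁻¹ * g') B'') := by
    rw [h2, inf_idem]
    intro h4
    exact hBC (by rw [hg]; exact (c_cj hC.sub g B').2 h4)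
  exact (malnormal hC.sub m G A' h' B' hB' B'' hB'' _ h3).1.symm

theorem terminal_groups (hC : Good C) [hG : Group.FG G] (n : ℕ) (A : Set (Subgroup G))
    (h : StopsAt C n G A) :
    A.Finite ∧
    (∀ K : Subgroup G, K.FG → ¬ Splits C K → ∃ B ∈ A, ∃ g : G, K ≤ cj g B) ∧
    (∀ B ∈ A, ∀ B' ∈ A, ∀ g : G, ¬ C ↥(B ⊓ cj g B') → B = B' ∧ g ∈ B) ∧
    (∀ K : Subgroup G, MaxNS C K ↔ ¬ C K ∧ ∃ B ∈ A, ∃ g : G, K = cj g B) ∧
    (∀ (m : ℕ) (A' : Set (Subgroup G)), StopsAt C m G A' → ∀ B ∈ A, ¬ C B →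
      ∃! B', B' ∈ A' ∧ ∃ g : G, B = cj g B') :=
  ⟨terminal_finite n G A h, fun K hK hKs => cover' hC.sub h K hK hKs,
    malnormal hC.sub n G A h, maxNS_iff hC h, fun _ _ h' B hB hBC => unique_conj hC h h' B hB hBC⟩

end Pool.Agent.Helper13.SA
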