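import Pool.Agent.Helper13.SA.VN9

/-! The inequality for the cocycle dimensions of a group acting on a tree. -/

set_option linter.unusedSectionVars false

namespace Pool.Agent.Helper13.SA

open SimpleGraph Function MulAction

variable {Γ : Type} [Group Γ] {C : GroupClass} {H : Type} [Group H] {S : Splitting C H}

/-- numbers of coordinates -/
def mm (F : Frame S) (n : F.R → ℕ) : F.R ⊕ F.Q → ℕ := Sum.elim n (fun _ => 1)

variable {F : Frame S} {f : H →* Γ} {n : F.R → ℕ}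
  (s : ∀ r, Fin (n r) → stabilizer H (F.vr r))

/-- the coordinates of the data -/
noncomputable def evD (d : Dat F f) : W2 Γ (Σ k : F.R ⊕ F.Q, Fin (mm F n k)) :=
  WithLp.toLp 2 fun a => match a with
    | ⟨Sum.inl r, i⟩ => (d.1 r).1 (s r i)
    | ⟨Sum.inr q, _⟩ => d.2 q

variable (f) in
/-- the subspaces of the blocks -/
noncomputable def MM : ∀ k : F.R ⊕ F.Q, Submodule ℝ (W2 Γ (Fin (mm F n k)))
  | Sum.inl r => ZZ (f.comp (stabilizer H (F.vr r)).subtype) (s r)
  | Sum.inr _ => ⊤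

theorem mem_MM {v : W2 Γ (Σ k : F.R ⊕ F.Q, Fin (mm F n k))} :
    v ∈ dsum (MM f s) ↔ ∃ d : Dat F f, evD s d = v := by
  rw [mem_dsum]
  constructor
  · intro h
    have h1 : ∀ r : F.R, ∃ c : CocT (f.comp (stabilizer H (F.vr r)).subtype),
        evs (s r) c = blk (Sum.inl r) v := fun r => mem_ZZ.1 (h (Sum.inl r))
    choose c hc using h1
    refine ⟨(c, fun q => v ⟨Sum.inr q, (0 : Fin 1)⟩), PiLp.ext ?_⟩
    rintro ⟨r | q, i⟩
    · exact congrArg (fun x : W2 Γ (Fin (n r)) => x i) (hc r)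
    · show v ⟨Sum.inr q, (0 : Fin 1)⟩ = v ⟨Sum.inr q, i⟩
      have h2 : i = (0 : Fin 1) := Subsingleton.elim (α := Fin 1) i 0
      rw [h2]
  · rintro ⟨d, rfl⟩ (r | q)
    · exact mem_ZZ.2 ⟨d.1 r, rfl⟩
    · exact Submodule.mem_top

variable {s} (hs : ∀ r, Gen (s r))

include hs

theorem isClosed_MM (k : F.R ⊕ F.Q) : IsClosed (MM f s k : Set (W2 Γ (Fin (mm F n k)))) := by
  rcases k with r | q
  · exact isClosed_ZZ _ (hs r)
  · exact isClosed_univ

omit hs in
theorem inv_MM (k : F.R ⊕ F.Q) : Inv (MM f s k) := by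
  rcases k with r | q
  · exact inv_ZZ _ _
  · exact fun _ _ _ => Submodule.mem_top

theorem dimV_MM : dimV (dsum (MM f s)) =
    ∑ r, del (f.comp (stabilizer H (F.vr r)).subtype) + Fintype.card F.Q := by
  rw [dimV_dsum (isClosed_MM hs), Fintype.sum_sum_type]
  congr 1
  · refine Finset.sum_congr rfl fun r _ => ?_
    rw [del_eq _ (hs r)]
    rfl
  · have h : ∀ q : F.Q, dimV (MM f s (Sum.inr q)) = 1 := by
      intro q
      have h1 : dimV (⊤ : Submodule ℝ (W2 Γ (Fin 1))) = 1 := by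
        rw [dimV_top]
        simp
      exact h1
    rw [Finset.sum_congr rfl fun q _ => h q]
    simp

theorem opV_cc (r : F.R) (g : H) : OpV (evD s) fun d : Dat F f => cc d r g := by
  by_cases h : g ∈ stabilizer H (F.vr r)
  · have h1 := OpV.comp (ev := evD s) (opV_coc (f.comp (stabilizer H (F.vr r)).subtype) (hs r) ⟨g, h⟩)
      (fun d : Dat F f => d.1 r)
      (fun i => (OpV.coord (⟨Sum.inl r, i⟩ : Σ k : F.R ⊕ F.Q, Fin (mm F n k))).congr fun d => rfl)
    exact h1.congr fun d => cc_of_mem d h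
  · exact OpV.zero.congr fun _ => by unfold cc; rw [dif_neg h]

omit hs in
theorem opV_edge (q : F.Q) : OpV (evD s) fun d : Dat F f => d.2 q :=
  (OpV.coord (⟨Sum.inr q, (0 : Fin 1)⟩ : Σ k : F.R ⊕ F.Q, Fin (mm F n k))).congr fun d => rfl

theorem opV_aa (g : H) (x : S.V) : OpV (evD s) fun d : Dat F f => aa d g x :=
  (opV_cc hs _ _).lam _

theorem opV_psi (q : F.Q) (g : H) : OpV (evD s) fun d : Dat F f => psi d q g :=
  ((opV_aa hs _ _).add ((opV_edge q).lam _)).sub (opV_aa hs _ _)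

omit hs in
/-- the edge condition as a cocycle -/
theorem coc_edge (d : Dat F f) (q : F.Q) :
    Coc (f.comp (stabilizer H (F.vx q) ⊓ stabilizer H (F.vy q)).subtype)
      fun k => psi d q k.1 - d.2 q := by
  intro k k'
  show psi d q (k.1 * k'.1) - d.2 q = psi d q k.1 - d.2 q + lam (f k.1) (psi d q k'.1 - d.2 q)
  have h1 : k'.1 • F.vx q = F.vx q := k'.2.1
  have h2 : k'.1 • F.vy q = F.vy q := k'.2.2
  rw [psi_mul, h1, h2, map_sub]
  have h3 : psi d q k.1 = aa d k.1 (F.vy q) + lam (f k.1) (d.2 q) - aa d k.1 (F.vx q) := rfl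
  rw [h3]
  abel

omit hs in
theorem good_of_gen {d : Dat F f} {e : F.Q → ℕ}
    {t : ∀ q, Fin (e q) → ↥(stabilizer H (F.vx q) ⊓ stabilizer H (F.vy q))} (ht : ∀ q, Gen (t q))
    (h : ∀ q i, psi d q (t q i).1 - d.2 q = 0) : GoodD d := by
  intro q k h1 h2
  have h3 := (coc_edge d q).eq_zero (ht q) (h q) ⟨k, h1, h2⟩
  exact sub_eq_zero.1 h3

/-- values of potentials are bounded functions of the data -/
theorem opV_pot {D : Type} (θ : D → Dat F f) (hθ : ∀ d, GoodD (θ d)) (β : D → S.V → V2 Γ)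
    (o : S.V) (h0 : ∀ d, β d o = 0)
    (hβ : ∀ d u v, S.T.Adj u v → β d u = bb (θ d) u v + β d v) (x : S.V) :
    OpV (fun d => evD s (θ d)) fun d => β d x := by
  obtain ⟨p⟩ := S.tree.connected x o
  have hcomp : ∀ {φ : Dat F f → V2 Γ}, OpV (evD s) φ → OpV (fun d => evD s (θ d)) fun d => φ (θ d) := by
    rintro φ ⟨A, hA, hA'⟩
    exact ⟨A, hA, fun d => hA' (θ d)⟩
  induction p with
  | nil => exact OpV.zero.congr h0
  | cons h p ih =>
    have h1 := ih h0
    obtain ⟨q, g, ⟨h2, h3⟩ | ⟨h2, h3⟩⟩ := F.ex _ _ h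
    · refine ((hcomp (opV_psi hs q g)).add h1).congr fun d => ?_
      rw [hβ d _ _ h, bb_pos (hθ d) h2 h3]
    · refine ((hcomp (opV_psi hs q g)).neg.add h1).congr fun d => ?_
      rw [hβ d _ _ h, bb_neg (hθ d) h2 h3]

omit hs in
/-- The inequality for a group acting on a tree. -/
theorem tree_ineq (F : Frame S) (f : H →* Γ) [Group.FG H]
    (hR : ∀ r, Group.FG (stabilizer H (F.vr r)))
    (hQ : ∀ q, Group.FG ↥(stabilizer H (F.vx q) ⊓ stabilizer H (F.vy q))) (r0 : F.R) :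
    ∑ r, del (f.comp (stabilizer H (F.vr r)).subtype) + Fintype.card F.Q ≤
      ∑ q, del (f.comp (stabilizer H (F.vx q) ⊓ stabilizer H (F.vy q)).subtype) + del f +
        ((Fintype.card F.R : ℝ) - 1) := by
  classical
  choose n s hs using fun r => exists_gen (H := stabilizer H (F.vr r))
  choose e t ht using fun q => exists_gen (H := ↥(stabilizer H (F.vx q) ⊓ stabilizer H (F.vy q)))
  obtain ⟨n0, s0, hs0⟩ := exists_gen (H := H)
  have hcl := isClosed_dsum (isClosed_MM (f := f) hs)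
  have hinv := inv_dsum (inv_MM (f := f) (s := s))
  -- the edge conditions
  obtain ⟨A1, hA1, hA1'⟩ := OpV.pi (ev := evD (f := f) s)
    (φ := fun (a : Σ q, Fin (e q)) d => psi d a.1 (t a.1 a.2).1 - d.2 a.1)
    (fun a => (opV_psi hs _ _).sub (opV_edge _))
  have step1 := dimV_le hA1 hinv hcl
    (N := dsum fun q => ZZ (f.comp (stabilizer H (F.vx q) ⊓ stabilizer H (F.vy q)).subtype) (t q))
    (by
      intro x hx
      obtain ⟨d, rfl⟩ := (mem_MM s).1 hx
      rw [mem_dsum]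
      intro q
      exact ⟨fun k => psi d q k.1 - d.2 q, coc_edge d q, fun i => hA1' d ⟨q, i⟩⟩)
  rw [dimV_dsum (fun q => isClosed_ZZ _ (ht q)), dimV_MM hs] at step1
  have hq : ∀ q, dimV (ZZ (f.comp (stabilizer H (F.vx q) ⊓ stabilizer H (F.vy q)).subtype) (t q)) =
      del (f.comp (stabilizer H (F.vx q) ⊓ stabilizer H (F.vy q)).subtype) :=
    fun q => (del_eq _ (ht q)).symm
  rw [Finset.sum_congr rfl fun q _ => hq q] at step1
  set M2 : Submodule ℝ (W2 Γ (Σ k : F.R ⊕ F.Q, Fin (mm F n k))) :=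
    dsum (MM f s) ⊓ LinearMap.ker (A1 : W2 Γ (Σ k : F.R ⊕ F.Q, Fin (mm F n k)) →ₗ[ℝ]
      W2 Γ (Σ q, Fin (e q))) with hM2
  have hM2cl : IsClosed (M2 : Set (W2 Γ (Σ k : F.R ⊕ F.Q, Fin (mm F n k)))) :=
    hcl.inter (isClosed_ker A1)
  have hM2inv : Inv M2 := by
    rintro g x ⟨hx, hx'⟩
    refine ⟨hinv g x hx, ?_⟩
    have h1 : A1 x = 0 := hx'
    show A1 (rhoW g x) = 0
    rw [hA1 g x, h1, map_zero]
  have hM2mem : ∀ x ∈ M2, ∃ d : {d : Dat F f // GoodD d}, evD s d.1 = x := by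
    rintro x ⟨hx, hx'⟩
    obtain ⟨d, rfl⟩ := (mem_MM s).1 hx
    refine ⟨⟨d, good_of_gen ht fun q i => ?_⟩, rfl⟩
    have h1 : A1 (evD s d) = 0 := hx'
    have h2 := hA1' d ⟨q, i⟩
    rw [h1] at h2
    exact h2.symm
  -- gluing
  choose β c h0 hβ hc hcx using
    fun d : {d : Dat F f // GoodD d} => exists_glue d.2 (F.vr r0)
  have hopc : ∀ g, OpV (fun d : {d : Dat F f // GoodD d} => evD s d.1) fun d => c d g := by
    intro g
    have h1 := opV_pot hs (fun d : {d : Dat F f // GoodD d} => d.1) (fun d => d.2) β (F.vr r0)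
      h0 hβ
    have h2 : OpV (fun d : {d : Dat F f // GoodD d} => evD s d.1)
        fun d => aa d.1 g (F.vr r0) := by
      obtain ⟨A, hA, hA'⟩ := opV_aa (f := f) hs g (F.vr r0)
      exact ⟨A, hA, fun d => hA' d.1⟩
    exact ((h2.add (h1 (g • F.vr r0))).sub ((h1 (F.vr r0)).lam (f g))).congr
      fun d => hcx d g (F.vr r0)
  obtain ⟨A2, hA2, hA2'⟩ := OpV.pi (fun i => hopc (s0 i))
  have step2 := dimV_le hA2 hM2inv hM2cl (N := ZZ f s0)
    (by
      intro x hx
      obtain ⟨d, rfl⟩ := hM2mem x hx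
      exact ⟨c d, hc d, fun i => hA2' d i⟩)
  rw [← del_eq f hs0] at step2
  -- the kernel
  let w' : W2 Γ {r : F.R // r ≠ r0} → F.R → V2 Γ := fun w r => if h : r ≠ r0 then w ⟨r, h⟩ else 0
  have hw' : ∀ r, OpV (id : W2 Γ {r : F.R // r ≠ r0} → W2 Γ {r : F.R // r ≠ r0})
      fun w => w' w r := by
    intro r
    by_cases h : r ≠ r0
    · exact (OpV.coord (⟨r, h⟩ : {r : F.R // r ≠ r0})).congr fun w => dif_pos h
    · exact OpV.zero.congr fun w => dif_neg h
  obtain ⟨U, hU, hU'⟩ := OpV.pi (ev := (id : W2 Γ {r : F.R // r ≠ r0} → _))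
    (φ := fun (a : Σ k : F.R ⊕ F.Q, Fin (mm F n k)) w => match a with
      | ⟨Sum.inl r, i⟩ => lam (f (s r i).1) (w' w r) - w' w r
      | ⟨Sum.inr q, _⟩ => lam (f (F.gam (F.vx q))) (w' w (F.cl (F.vx q))) -
          lam (f (F.gam (F.vy q))) (w' w (F.cl (F.vy q))))
    (by
      rintro ⟨r | q, i⟩
      · exact ((hw' r).lam _).sub (hw' r)
      · exact ((hw' _).lam _).sub ((hw' _).lam _))
  have step3 := dimV_map_le hU (N := M2 ⊓ LinearMap.ker (A2 :
      W2 Γ (Σ k : F.R ⊕ F.Q, Fin (mm F n k)) →ₗ[ℝ] W2 Γ (Fin n0)))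
    (by
      rintro x ⟨hx, hx'⟩
      obtain ⟨d, rfl⟩ := hM2mem x hx
      have hx'' : A2 (evD s d.1) = 0 := hx'
      have hc0 : ∀ g, c d g = 0 := by
        refine (hc d).eq_zero hs0 fun i => ?_
        rw [← hA2' d i, hx'']
        rfl
      have hβx : ∀ x, β d x = lam (f (F.gam x)) (β d (F.vr (F.cl x))) := by
        intro x
        have h1 := hcx d (F.gam x) (F.vr (F.cl x))
        rw [hc0, aa_gam, F.gam_smul, zero_add] at h1
        exact sub_eq_zero.1 h1.symm
      let w : W2 Γ {r : F.R // r ≠ r0} := WithLp.toLp 2 fun r => β d (F.vr r.1)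
      have hw : ∀ r, w' w r = β d (F.vr r) := by
        intro r
        by_cases h : r ≠ r0
        · exact dif_pos h
        · have h1 : r = r0 := not_not.1 h
          have h2 : w' w r = 0 := dif_neg h
          rw [h2, h1, h0]
      refine ⟨w, PiLp.ext ?_⟩
      rintro ⟨r | q, i⟩
      · rw [show U w = U (id w) from rfl, hU']
        show lam (f (s r i).1) (w' w r) - w' w r = (d.1.1 r).1 (s r i)
        have h1 := hcx d (s r i).1 (F.vr r)
        have h2 : (s r i).1 • F.vr r = F.vr r := (s r i).2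
        rw [hc0, aa_vr d.1 (s r i).2, h2, cc_of_mem d.1 (s r i).2] at h1
        rw [hw]
        have h3 : (d.1.1 r).1 ⟨(s r i).1, (s r i).2⟩ = (d.1.1 r).1 (s r i) := rfl
        rw [h3] at h1
        have h4 : (d.1.1 r).1 (s r i) = lam (f (s r i).1) (β d (F.vr r)) - β d (F.vr r) := by
          rw [eq_sub_iff_add_eq]
          exact sub_eq_zero.1 h1.symm
        exact h4.symm
      · rw [show U w = U (id w) from rfl, hU']
        show lam (f (F.gam (F.vx q))) (w' w (F.cl (F.vx q))) -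
          lam (f (F.gam (F.vy q))) (w' w (F.cl (F.vy q))) = d.1.2 q
        rw [hw, hw, ← hβx, ← hβx, hβ d _ _ (F.adj q), add_sub_cancel_right,
          bb_pos d.2 (g := 1) (one_smul _ _) (one_smul _ _)]
        exact d.2 q 1 (one_smul _ _) (one_smul _ _))
  have hcard : (Fintype.card {r : F.R // r ≠ r0} : ℝ) = (Fintype.card F.R : ℝ) - 1 := by
    have h1 : Fintype.card {r : F.R // r ≠ r0} + 1 = Fintype.card F.R := by
      rw [Fintype.card_subtype_compl]
      have h2 : Fintype.card {r : F.R // r = r0} = 1 := by simp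
      have h3 : 0 < Fintype.card F.R := Fintype.card_pos_iff.2 ⟨r0⟩
      rw [h2]
      omega
    have h2 : (Fintype.card {r : F.R // r ≠ r0} : ℝ) + 1 = Fintype.card F.R := by exact_mod_cast h1
    linarith
  rw [hcard] at step3
  linarith

end Pool.Agent.Helper13.SA
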