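import Pool.Agent.Helper13.SA.VN2

/-! The dimension of invariant subspaces. -/

set_option linter.unusedSectionVars false

namespace Pool.Agent.Helper13.SA

open scoped InnerProductSpace
open Filter Topology

variable {Γ : Type} [Group Γ] {ι κ : Type} [Fintype ι] [Fintype κ]

/-- the projection onto the closure of `M` -/
noncomputable def pr (M : Submodule ℝ (W2 Γ ι)) : W2 Γ ι →L[ℝ] W2 Γ ι :=
  M.topologicalClosure.starProjection

/-- the dimension of the closure of `M` -/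
noncomputable def dimV (M : Submodule ℝ (W2 Γ ι)) : ℝ := tr (pr M)

/-- invariance under right translations -/
def Inv (M : Submodule ℝ (W2 Γ ι)) : Prop := ∀ (g : Γ), ∀ x ∈ M, rhoW g x ∈ M

theorem pr_mem (M : Submodule ℝ (W2 Γ ι)) (x : W2 Γ ι) : pr M x ∈ M.topologicalClosure :=
  Submodule.starProjection_apply_mem _ _

theorem pr_mem' {M : Submodule ℝ (W2 Γ ι)} (hM : IsClosed (M : Set (W2 Γ ι))) (x : W2 Γ ι) :
    pr M x ∈ M := by
  have h := pr_mem M x
  rwa [hM.submodule_topologicalClosure_eq] at h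

theorem inner_pr (M : Submodule ℝ (W2 Γ ι)) (x : W2 Γ ι) {y : W2 Γ ι}
    (hy : y ∈ M.topologicalClosure) : ⟪x - pr M x, y⟫_ℝ = 0 :=
  Submodule.starProjection_inner_eq_zero x y hy

theorem eq_pr {M : Submodule ℝ (W2 Γ ι)} {x y : W2 Γ ι} (h : y ∈ M)
    (h' : ∀ z ∈ M, ⟪x - y, z⟫_ℝ = 0) : pr M x = y := by
  refine Submodule.eq_starProjection_of_mem_of_inner_eq_zero
    (M.le_topologicalClosure h) fun w hw => ?_
  have hc : IsClosed {w : W2 Γ ι | ⟪x - y, w⟫_ℝ = 0} :=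
    isClosed_eq (continuous_const.inner continuous_id) continuous_const
  have hs : (M : Set (W2 Γ ι)) ⊆ {w : W2 Γ ι | ⟪x - y, w⟫_ℝ = 0} := h'
  exact closure_minimal hs hc hw

theorem pr_eq_self {M : Submodule ℝ (W2 Γ ι)} {x : W2 Γ ι} (h : x ∈ M.topologicalClosure) :
    pr M x = x :=
  Submodule.starProjection_eq_self_iff.2 h

theorem inner_pr_self (M : Submodule ℝ (W2 Γ ι)) (x : W2 Γ ι) :
    ⟪x, pr M x⟫_ℝ = ‖pr M x‖ ^ 2 := by
  have h := inner_pr M x (pr_mem M x)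
  rw [inner_sub_left, sub_eq_zero] at h
  rw [h, real_inner_self_eq_norm_sq]

theorem dimV_eq (M : Submodule ℝ (W2 Γ ι)) : dimV M = ∑ i, ‖pr M (ee i 1)‖ ^ 2 := by
  unfold dimV tr
  refine Finset.sum_congr rfl fun i _ => ?_
  rw [← inner_ee, inner_pr_self]

theorem dimV_nonneg (M : Submodule ℝ (W2 Γ ι)) : 0 ≤ dimV M := by
  rw [dimV_eq]
  positivity

theorem norm_pr_le (M : Submodule ℝ (W2 Γ ι)) (x : W2 Γ ι) : ‖pr M x‖ ≤ ‖x‖ :=
  Submodule.norm_starProjection_apply_le _ _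

theorem pr_pr {M N : Submodule ℝ (W2 Γ ι)} (h : M.topologicalClosure ≤ N.topologicalClosure)
    (x : W2 Γ ι) : pr M (pr N x) = pr M x := by
  refine Submodule.eq_starProjection_of_mem_of_inner_eq_zero (pr_mem M x) fun w hw => ?_
  have h1 := inner_pr M x hw
  have h2 := inner_pr N x (h hw)
  rw [inner_sub_left] at h1 h2 ⊢
  linarith

theorem dimV_mono' {M N : Submodule ℝ (W2 Γ ι)} (h : M.topologicalClosure ≤ N.topologicalClosure) :
    dimV M ≤ dimV N := by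
  rw [dimV_eq, dimV_eq]
  refine Finset.sum_le_sum fun i _ => ?_
  rw [← pr_pr h]
  have := norm_pr_le M (pr N (ee i 1))
  gcongr

theorem dimV_mono {M N : Submodule ℝ (W2 Γ ι)} (h : M ≤ N) : dimV M ≤ dimV N :=
  dimV_mono' (Submodule.topologicalClosure_mono h)

theorem pr_bot : pr (⊥ : Submodule ℝ (W2 Γ ι)) = 0 := by
  ext1 x
  refine eq_pr (Submodule.zero_mem _) fun z hz => ?_
  rw [(Submodule.mem_bot ℝ).1 hz, inner_zero_right]

theorem pr_top : pr (⊤ : Submodule ℝ (W2 Γ ι)) = 1 := by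
  ext1 x
  refine eq_pr Submodule.mem_top fun z hz => ?_
  rw [one_apply_eq_self, sub_self, inner_zero_left]

theorem dimV_bot : dimV (⊥ : Submodule ℝ (W2 Γ ι)) = 0 := by
  rw [dimV, pr_bot]
  simp [tr]

theorem dimV_top : dimV (⊤ : Submodule ℝ (W2 Γ ι)) = Fintype.card ι := by
  rw [dimV, pr_top, tr_one]

theorem dimV_le_card (M : Submodule ℝ (W2 Γ ι)) : dimV M ≤ Fintype.card ι := by
  rw [← dimV_top (Γ := Γ) (ι := ι)]
  exact dimV_mono le_top

theorem continuous_rhoW (g : Γ) : Continuous (rhoW g : W2 Γ ι →ₗ[ℝ] W2 Γ ι) := by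
  refine (PiLp.continuous_toLp 2 _).comp (continuous_pi fun i => ?_)
  exact (rho g).continuous.comp ((continuous_apply i).comp (PiLp.continuous_ofLp 2 _))

theorem Inv.closure {M : Submodule ℝ (W2 Γ ι)} (h : Inv M) : Inv M.topologicalClosure := by
  intro g x hx
  have h1 : Set.MapsTo (rhoW g : W2 Γ ι →ₗ[ℝ] W2 Γ ι) (M : Set (W2 Γ ι)) (M : Set (W2 Γ ι)) :=
    fun x hx => h g x hx
  exact h1.closure (continuous_rhoW g) hx

theorem Inv.eqv {M : Submodule ℝ (W2 Γ ι)} (h : Inv M) : Eqv (pr M) := by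
  intro g x
  refine Submodule.eq_starProjection_of_mem_of_inner_eq_zero (h.closure g _ (pr_mem M x))
    fun w hw => ?_
  rw [← map_sub, inner_rhoW_left]
  exact inner_pr M x (h.closure g⁻¹ w hw)

theorem dimV_orthogonal (M : Submodule ℝ (W2 Γ ι)) :
    dimV M + dimV Mᗮ = Fintype.card ι := by
  have h : pr Mᗮ = 1 - pr M := by
    ext1 x
    refine eq_pr ?_ fun z hz => ?_
    · rw [sub_apply, one_apply_eq_self, Submodule.mem_orthogonal']
      exact fun y hy => inner_pr M x (M.le_topologicalClosure hy)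
    · rw [sub_apply, one_apply_eq_self, sub_sub_cancel]
      have h1 : pr M x ∈ Mᗮᗮ := by
        rw [Submodule.orthogonal_orthogonal_eq_closure]
        exact pr_mem M x
      exact Submodule.inner_left_of_mem_orthogonal hz h1
  rw [dimV, dimV, h, tr_sub, tr_one]
  ring

section Ergodic

variable (A : W2 Γ ι →L[ℝ] W2 Γ κ)

/-- the operator `1 - c A† A` -/
noncomputable def TT (c : ℝ) : W2 Γ ι →L[ℝ] W2 Γ ι :=
  1 - c • (ContinuousLinearMap.adjoint A ∘L A)

theorem norm_TT {c : ℝ} (hc : 0 ≤ c) (h : c * ‖A‖ ^ 2 ≤ 1) : ‖TT A c‖ ≤ 1 := by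
  refine ContinuousLinearMap.opNorm_le_bound _ zero_le_one fun x => ?_
  rw [one_mul]
  refine le_of_sq_le_sq ?_ (norm_nonneg _)
  have h1 : TT A c x = x - c • ContinuousLinearMap.adjoint A (A x) := rfl
  rw [h1, norm_sub_sq_real, real_inner_smul_right, ContinuousLinearMap.adjoint_inner_right,
    real_inner_self_eq_norm_sq, norm_smul, mul_pow, Real.norm_eq_abs, sq_abs]
  have h2 : ‖ContinuousLinearMap.adjoint A (A x)‖ ≤ ‖A‖ * ‖A x‖ := by
    refine (ContinuousLinearMap.le_opNorm _ _).trans ?_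
    rw [LinearIsometryEquiv.norm_map]
  have h3 : ‖ContinuousLinearMap.adjoint A (A x)‖ ^ 2 ≤ ‖A‖ ^ 2 * ‖A x‖ ^ 2 := by
    rw [← mul_pow]
    gcongr
  have h4 : c ^ 2 * ‖ContinuousLinearMap.adjoint A (A x)‖ ^ 2 ≤ c * ‖A x‖ ^ 2 := by
    calc c ^ 2 * ‖ContinuousLinearMap.adjoint A (A x)‖ ^ 2
        ≤ c ^ 2 * (‖A‖ ^ 2 * ‖A x‖ ^ 2) := by gcongr
      _ = c * (c * ‖A‖ ^ 2) * ‖A x‖ ^ 2 := by ring
      _ ≤ c * 1 * ‖A x‖ ^ 2 := by gcongr
      _ = c * ‖A x‖ ^ 2 := by ring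
  have h5 : 0 ≤ c * ‖A x‖ ^ 2 := by positivity
  linarith

theorem TT_fix {c : ℝ} (hc : 0 < c) (x : W2 Γ ι) : TT A c x = x ↔ A x = 0 := by
  have h1 : TT A c x = x - c • ContinuousLinearMap.adjoint A (A x) := rfl
  rw [h1, sub_eq_self, smul_eq_zero_iff_right hc.ne']
  constructor
  · intro h
    have h2 : ⟪x, ContinuousLinearMap.adjoint A (A x)⟫_ℝ = 0 := by rw [h, inner_zero_right]
    rw [ContinuousLinearMap.adjoint_inner_right, inner_self_eq_zero] at h2
    exact h2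
  · intro h
    rw [h, map_zero]

theorem isClosed_ker : IsClosed ((LinearMap.ker (A : W2 Γ ι →ₗ[ℝ] W2 Γ κ) :
    Submodule ℝ (W2 Γ ι)) : Set (W2 Γ ι)) :=
  isClosed_eq A.continuous continuous_const

theorem tendsto_TT {c : ℝ} (hc : 0 < c) (h : c * ‖A‖ ^ 2 ≤ 1) :
    Tendsto (fun n : ℕ => (n : ℝ)⁻¹ * ∑ k ∈ Finset.range n, tr (TT A c ^ k)) atTop
      (𝓝 (dimV (LinearMap.ker (A : W2 Γ ι →ₗ[ℝ] W2 Γ κ)))) := by
  have h1 : ∀ i : ι, Tendsto (fun n : ℕ =>
      (n : ℝ)⁻¹ * ∑ k ∈ Finset.range n, ((TT A c ^ k) (ee i 1)) i 1) atTop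
      (𝓝 ((pr (LinearMap.ker (A : W2 Γ ι →ₗ[ℝ] W2 Γ κ)) (ee i 1)) i 1)) := by
    intro i
    have h2 := (TT A c).tendsto_birkhoffAverage_orthogonalProjection (norm_TT A hc.le h) (ee i 1)
    have h3 : (((TT A c).eqLocus (1 : W2 Γ ι →L[ℝ] W2 Γ ι)).orthogonalProjectionOnto (ee i 1) :
        W2 Γ ι) = pr (LinearMap.ker (A : W2 Γ ι →ₗ[ℝ] W2 Γ κ)) (ee i 1) := by
      symm
      refine eq_pr ?_ fun z hz => ?_
      · have h4 := (((TT A c).eqLocus (1 : W2 Γ ι →L[ℝ] W2 Γ ι)).orthogonalProjectionOnto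
          (ee i 1)).2
        exact (TT_fix A hc _).1 h4
      · have h4 : z ∈ (TT A c).eqLocus (1 : W2 Γ ι →L[ℝ] W2 Γ ι) := (TT_fix A hc z).2 hz
        exact Submodule.starProjection_inner_eq_zero (ee i 1) z h4
    rw [h3] at h2
    have h5 : Continuous fun x : W2 Γ ι => ⟪ee i 1, x⟫_ℝ :=
      continuous_const.inner continuous_id
    have h6 := (h5.tendsto _).comp h2
    rw [inner_ee] at h6
    refine h6.congr fun n => ?_
    rw [Function.comp_apply, birkhoffAverage, birkhoffSum, inner_smul_right, inner_sum]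
    congr 1
    refine Finset.sum_congr rfl fun k _ => ?_
    rw [inner_ee]
    have h7 : (TT A c)^[k] (ee i 1) = (TT A c ^ k) (ee i 1) := by
      rw [FunLike.coe_pow_eq_iterate]
    rw [← h7]
    rfl
  have h2 := tendsto_finsetSum Finset.univ fun i _ => h1 i
  refine h2.congr fun n => ?_
  rw [← Finset.mul_sum, Finset.sum_comm]
  rfl

end Ergodic

end Pool.Agent.Helper13.SA
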