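import Pool.Agent.Helper13.SA.VN5

/-! Cocycles with values in the square-summable functions, and their dimension. -/

set_option linter.unusedSectionVars false

namespace Pool.Agent.Helper13.SA

open scoped InnerProductSpace
open Filter Topology

variable {Γ : Type} [Group Γ] {H : Type} [Group H] {ι κ : Type} [Fintype ι] [Fintype κ]

/-- `c` is a cocycle for the action of `H` by left translations through `f` -/
def Coc (f : H →* Γ) (c : H → V2 Γ) : Prop := ∀ g h, c (g * h) = c g + lam (f g) (c h)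

theorem Coc.one {f : H →* Γ} {c : H → V2 Γ} (h : Coc f c) : c 1 = 0 := by
  have h1 := h 1 1
  rw [map_one, lam_one, mul_one] at h1
  exact left_eq_add.1 h1

theorem Coc.inv {f : H →* Γ} {c : H → V2 Γ} (h : Coc f c) (g : H) :
    c g⁻¹ = - lam (f g)⁻¹ (c g) := by
  have h1 := h g⁻¹ g
  rw [inv_mul_cancel, h.one, map_inv] at h1
  exact eq_neg_of_add_eq_zero_left h1.symm

theorem Coc.zero (f : H →* Γ) : Coc f (0 : H → V2 Γ) := fun g h => by simp

theorem Coc.add {f : H →* Γ} {c d : H → V2 Γ} (hc : Coc f c) (hd : Coc f d) :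
    Coc f (c + d) := fun g h => by
  rw [Pi.add_apply, Pi.add_apply, Pi.add_apply, hc, hd, map_add]
  abel

theorem Coc.smul {f : H →* Γ} {c : H → V2 Γ} (hc : Coc f c) (a : ℝ) : Coc f (a • c) :=
  fun g h => by
    rw [Pi.smul_apply, Pi.smul_apply, Pi.smul_apply, hc, map_smul, smul_add]

theorem Coc.rho {f : H →* Γ} {c : H → V2 Γ} (hc : Coc f c) (γ : Γ) :
    Coc f fun g => rho γ (c g) := fun g h => by
  show SA.rho γ (c (g * h)) = SA.rho γ (c g) + lam (f g) (SA.rho γ (c h))
  rw [hc, map_add, lam_rho]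

/-- The coboundary of a vector. -/
theorem Coc.cob (f : H →* Γ) (v : V2 Γ) : Coc f fun g => lam (f g) v - v := fun g h => by
  show lam (f (g * h)) v - v = (lam (f g) v - v) + lam (f g) (lam (f h) v - v)
  rw [map_mul, lam_mul, map_sub]
  abel

/-- the family `s` generates -/
def Gen (s : ι → H) : Prop := Subgroup.closure (Set.range s) = ⊤

theorem Gen.induction {s : ι → H} (hs : Gen s) {P : H → Prop} (h0 : ∀ i, P (s i)) (h1 : P 1)
    (hm : ∀ g h, P g → P h → P (g * h)) (hi : ∀ g, P g → P g⁻¹) (g : H) : P g := by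
  have hg : g ∈ Subgroup.closure (Set.range s) := by rw [hs]; exact Subgroup.mem_top g
  induction hg using Subgroup.closure_induction with
  | mem x hx => obtain ⟨i, rfl⟩ := hx; exact h0 i
  | one => exact h1
  | mul x y _ _ hx hy => exact hm x y hx hy
  | inv x _ hx => exact hi x hx

theorem Coc.eq_zero {f : H →* Γ} {c : H → V2 Γ} (hc : Coc f c) {s : ι → H} (hs : Gen s)
    (h : ∀ i, c (s i) = 0) (g : H) : c g = 0 := by
  refine hs.induction (P := fun g => c g = 0) h hc.one (fun g h hg hh => ?_) (fun g hg => ?_) g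
  · rw [hc, hg, hh, map_zero, add_zero]
  · rw [hc.inv, hg, map_zero, neg_zero]

/-- the type of cocycles -/
def CocT (f : H →* Γ) : Type := {c : H → V2 Γ // Coc f c}

/-- the values of a cocycle on a family -/
noncomputable def evs {f : H →* Γ} (s : ι → H) (c : CocT f) : W2 Γ ι :=
  WithLp.toLp 2 fun i => c.1 (s i)

@[simp] theorem evs_apply {f : H →* Γ} (s : ι → H) (c : CocT f) (i : ι) :
    evs s c i = c.1 (s i) := rfl

theorem opV_coc (f : H →* Γ) {s : ι → H} (hs : Gen s) (g : H) :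
    OpV (evs s) fun c : CocT f => c.1 g := by
  refine hs.induction (P := fun g => OpV (evs s) fun c : CocT f => c.1 g)
    (fun i => OpV.coord i) ?_ (fun g h hg hh => ?_) (fun g hg => ?_) g
  · exact OpV.zero.congr fun c => c.2.one
  · exact (hg.add (hh.lam (f g))).congr fun c => c.2 g h
  · exact (hg.lam (f g)⁻¹).neg.congr fun c => c.2.inv g

/-- the space of values of cocycles on the family `s` -/
noncomputable def ZZ (f : H →* Γ) (s : ι → H) : Submodule ℝ (W2 Γ ι) where
  carrier := {v | ∃ c, Coc f c ∧ ∀ i, v i = c (s i)}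
  zero_mem' := ⟨0, Coc.zero f, fun _ => rfl⟩
  add_mem' := by
    rintro v w ⟨c, hc, hv⟩ ⟨d, hd, hw⟩
    exact ⟨c + d, hc.add hd, fun i => by rw [PiLp.add_apply, hv, hw, Pi.add_apply]⟩
  smul_mem' := by
    rintro a v ⟨c, hc, hv⟩
    exact ⟨a • c, hc.smul a, fun i => by rw [PiLp.smul_apply, hv, Pi.smul_apply]⟩

theorem mem_ZZ {f : H →* Γ} {s : ι → H} {v : W2 Γ ι} : v ∈ ZZ f s ↔ ∃ c : CocT f, evs s c = v := by
  constructor
  · rintro ⟨c, hc, hv⟩
    exact ⟨⟨c, hc⟩, PiLp.ext fun i => (hv i).symm⟩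
  · rintro ⟨c, rfl⟩
    exact ⟨c.1, c.2, fun i => rfl⟩

theorem inv_ZZ (f : H →* Γ) (s : ι → H) : Inv (ZZ f s) := by
  rintro γ v ⟨c, hc, hv⟩
  exact ⟨fun g => rho γ (c g), hc.rho γ, fun i => by rw [rhoW_apply, hv]⟩

theorem isClosed_ZZ (f : H →* Γ) {s : ι → H} (hs : Gen s) :
    IsClosed (ZZ f s : Set (W2 Γ ι)) := by
  choose A hA hA' using fun g => opV_coc f hs g
  have h : (ZZ f s : Set (W2 Γ ι)) =
      (⋂ g, ⋂ h, {v | A (g * h) v = A g v + lam (f g) (A h v)}) ∩ ⋂ i, {v | v i = A (s i) v} := by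
    ext v
    simp only [SetLike.mem_coe, Set.mem_inter_iff, Set.mem_iInter]
    constructor
    · intro hv
      obtain ⟨c, rfl⟩ := mem_ZZ.1 hv
      refine ⟨fun g h => ?_, fun i => hA' (s i) c⟩
      show A (g * h) (evs s c) = A g (evs s c) + lam (f g) (A h (evs s c))
      rw [← hA', ← hA', ← hA']
      exact c.2 g h
    · rintro ⟨h1, h2⟩
      exact ⟨fun g => A g v, h1, h2⟩
  rw [h]
  refine (isClosed_iInter fun g => isClosed_iInter fun h => ?_).inter
    (isClosed_iInter fun i => ?_)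
  · exact isClosed_eq (A (g * h)).continuous
      ((A g).continuous.add ((lam (f g)).continuous.comp (A h).continuous))
  · exact isClosed_eq ((continuous_apply i).comp (PiLp.continuous_ofLp 2 _)) (A (s i)).continuous

theorem dimV_ZZ_le (f : H →* Γ) {s : ι → H} (hs : Gen s) {t : κ → H} (ht : Gen t) :
    dimV (ZZ f s) ≤ dimV (ZZ f t) := by
  obtain ⟨A, hA, hA'⟩ := OpV.pi fun k => opV_coc f hs (t k)
  have h1 := dimV_le hA (inv_ZZ f s) (isClosed_ZZ f hs) (N := ZZ f t) ?_
  · have h2 : ZZ f s ⊓ LinearMap.ker (A : W2 Γ ι →ₗ[ℝ] W2 Γ κ) = ⊥ := by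
      rw [eq_bot_iff]
      rintro v ⟨hv, hv'⟩
      obtain ⟨c, rfl⟩ := mem_ZZ.1 hv
      have h3 : ∀ k, c.1 (t k) = 0 := fun k => by
        have h4 : A (evs s c) = 0 := hv'
        rw [← hA', h4]
        rfl
      rw [Submodule.mem_bot]
      refine PiLp.ext fun i => ?_
      rw [evs_apply, c.2.eq_zero ht h3]
      rfl
    rw [h2, dimV_bot, add_zero] at h1
    exact h1
  · intro v hv
    obtain ⟨c, rfl⟩ := mem_ZZ.1 hv
    exact ⟨c.1, c.2, fun k => hA' c k⟩

theorem dimV_ZZ_eq (f : H →* Γ) {s : ι → H} (hs : Gen s) {t : κ → H} (ht : Gen t) :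
    dimV (ZZ f s) = dimV (ZZ f t) :=
  le_antisymm (dimV_ZZ_le f hs ht) (dimV_ZZ_le f ht hs)

open Classical in
/-- The dimension of the space of cocycles of a finitely generated group. -/
noncomputable def del (f : H →* Γ) : ℝ :=
  if h : ∃ (n : ℕ) (s : Fin n → H), Gen s then dimV (ZZ f h.choose_spec.choose) else 0

theorem exists_gen [Group.FG H] : ∃ (n : ℕ) (s : Fin n → H), Gen s := by
  obtain ⟨S, hS⟩ := Group.fg_iff.1 (inferInstance : Group.FG H)
  obtain ⟨hS1, hS2⟩ := hS
  have := hS2.fintype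
  refine ⟨Fintype.card S, fun i => ((Fintype.equivFin S).symm i).1, ?_⟩
  unfold Gen
  rw [← hS1]
  congr 1
  ext x
  constructor
  · rintro ⟨i, rfl⟩
    exact ((Fintype.equivFin S).symm i).2
  · intro hx
    exact ⟨Fintype.equivFin S ⟨x, hx⟩, by simp⟩

theorem del_eq (f : H →* Γ) {s : ι → H} (hs : Gen s) : del f = dimV (ZZ f s) := by
  classical
  have hfg : Group.FG H := Group.fg_iff.2 ⟨Set.range s, hs, Set.finite_range s⟩
  have h : ∃ (n : ℕ) (s : Fin n → H), Gen s := exists_gen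
  unfold del
  rw [dif_pos h]
  exact dimV_ZZ_eq f h.choose_spec.choose_spec hs

theorem del_le_card (f : H →* Γ) {s : ι → H} (hs : Gen s) : del f ≤ Fintype.card ι := by
  rw [del_eq f hs]
  exact dimV_le_card _

end Pool.Agent.Helper13.SA
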